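import Pool.Agent.Lib.MP_240e45_ag.Expr

/-! Substituting a rational expression into a univariate rational function. -/

namespace Pool.Agent.MP_240e45_ag

namespace Expr

variable {g : ℕ}

variable {A : Type*} [Ring A] [Algebra ℂ A] (X : Fin g → A) (a : Expr g)

theorem dom_horner (l : List ℂ) (h : l ≠ []) : Dom X (horner a l) ↔ Dom X a := by
  have key : ∀ l : List ℂ, Dom X a → Dom X (horner a l) := by
    intro l ha
    induction l with
    | nil => trivial
    | cons c l ih => exact ⟨trivial, ha, ih⟩
  refine ⟨?_, key l⟩
  cases l with
  | nil => exact absurd rfl h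
  | cons c l => exact fun h => h.2.1

/-- the polynomial with a given list of coefficients -/
noncomputable def ofL : List ℂ → Polynomial ℂ
  | [] => 0
  | c :: l => Polynomial.C c + Polynomial.X * ofL l

theorem coeff_ofL (l : List ℂ) (i : ℕ) : (ofL l).coeff i = l.getD i 0 := by
  induction l generalizing i with
  | nil => simp [ofL]
  | cons c l ih =>
    cases i with
    | zero => simp [ofL]
    | succ i => simp [ofL, Polynomial.coeff_X_mul, ih, Polynomial.coeff_C_succ]

theorem ofL_coeffs (p : Polynomial ℂ) : ofL ((List.range (p.natDegree + 1)).map p.coeff) = p := by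
  ext i
  rw [coeff_ofL]
  by_cases hi : i < p.natDegree + 1
  · rw [List.getD_eq_getElem _ _ (by simpa using hi)]
    simp
  · rw [List.getD_eq_default _ _ (by simpa using hi)]
    exact (Polynomial.coeff_eq_zero_of_natDegree_lt (by omega)).symm

theorem val_horner (l : List ℂ) : val X (horner a l) = Polynomial.aeval (val X a) (ofL l) := by
  induction l with
  | nil => simp [horner, val, ofL]
  | cons c l ih => simp [horner, val, ofL, ih]

theorem val_poly (p : Polynomial ℂ) : val X (poly p a) = Polynomial.aeval (val X a) p := by
  rw [poly, val_horner, ofL_coeffs]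

theorem dom_poly (p : Polynomial ℂ) : Dom X (poly p a) ↔ Dom X a := by
  apply dom_horner
  simp

theorem dom_comp (f : RatFunc ℂ) : Dom X (comp f a) ↔
    Dom X a ∧ IsUnit (Polynomial.aeval (val X a) f.denom) := by
  show Dom X (poly f.num a) ∧ Dom X (poly f.denom a) ∧ IsUnit (val X (poly f.denom a)) ↔ _
  rw [dom_poly, dom_poly, val_poly]
  tauto

theorem val_comp (f : RatFunc ℂ) : val X (comp f a) =
    Polynomial.aeval (val X a) f.num * Ring.inverse (Polynomial.aeval (val X a) f.denom) := by
  show val X (poly f.num a) * Ring.inverse (val X (poly f.denom a)) = _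
  rw [val_poly, val_poly]

end Expr

end Pool.Agent.MP_240e45_ag
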