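import Pool.Agent.Lib.MP_240e45_ag.Cyclic

/-! Generic conditions and a common point. -/

namespace Pool.Agent.MP_240e45_ag

open Matrix

namespace Expr

variable {g : ℕ}

def hE (i j : Fin g) : Expr g := mul (inv (fE i j)) (cE i j)
def hE' (i j : Fin g) : Expr g := mul (inv (fE j i)) (cE i j)
def comE (a b : Expr g) : Expr g := sub (mul a b) (mul b a)
def cubeE (a : Expr g) : Expr g := sub (mul a (mul a a)) (const 4)
/-- an expression whose domain encodes the generic conditions -/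
def condE (i j : Fin g) : Expr g :=
  add (inv (comE (r0 i j) (hE i j))) (add (inv (comE (r0 i j) (hE' i j)))
    (add (inv (r0 i j)) (inv (cubeE (r0 i j)))))

end Expr

section

variable {A : Type*} [Ring A] [Algebra ℂ A] {g : ℕ} (X : Fin g → A) (i j : Fin g)

structure CondAt (x y : A) : Prop where
  f : IsUnit (ff x y)
  g : IsUnit (gg x y)
  f' : IsUnit (ff y x)
  com1 : IsUnit (rr x y * (Ring.inverse (ff x y) * cc x y) -
    (Ring.inverse (ff x y) * cc x y) * rr x y)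
  com2 : IsUnit (rr x y * (Ring.inverse (ff y x) * cc x y) -
    (Ring.inverse (ff y x) * cc x y) * rr x y)
  r : IsUnit (rr x y)
  cube : IsUnit (rr x y * (rr x y * rr x y) - algebraMap ℂ A 4)

theorem dom_condE : Expr.Dom X (Expr.condE i j) ↔ CondAt (X i) (X j) := by
  simp only [Expr.condE, Expr.comE, Expr.hE, Expr.hE', Expr.cubeE, Expr.dom_add, Expr.dom_inv,
    Expr.dom_sub, Expr.dom_mul, Expr.val_sub, Expr.val_mul, Expr.val_inv, val_r0, val_cE, val_fE,
    dom_r0, dom_cE, dom_fE, Expr.dom_const, Expr.val_const]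
  constructor
  · rintro ⟨h1, h2, h3, h4⟩
    exact ⟨h3.1.2, h3.1.1, h2.1.1.2.1.2, h1.2, h2.2, h3.2, h4.2⟩
  · rintro ⟨hf, hg, hf', hc1, hc2, hr, hq⟩
    tauto

end

theorem good_two : Good 2 := by
  constructor <;> norm_num

theorem isUnit_of_det_ne {M : Matrix (Fin 3) (Fin 3) ℂ} (h : M.det ≠ 0) : IsUnit M :=
  (Matrix.isUnit_iff_isUnit_det M).2 (isUnit_iff_ne_zero.2 h)

theorem cond_three : CondAt xm (ym 2) := by
  have hr : rr xm (ym 2) = !![0, 0, -8/3; -4/7, 0, 0; 0, 8/3, 0] := by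
    rw [good_two.rr]
    ext i j
    fin_cases i <;> fin_cases j <;> simp <;> norm_num
  have hh : Ring.inverse (ff xm (ym 2)) * cc xm (ym 2) = !![0, 4, 0; 0, 0, 2; -2/7, 0, 0] := by
    rw [ff_m, cc_m, inverse_diag one_ne_zero good_two.h1 good_two.h3]
    ext i j
    fin_cases i <;> fin_cases j <;> simp [Matrix.mul_apply, Fin.sum_univ_three] <;> norm_num
  have hh' : Ring.inverse (ff (ym 2) xm) * cc xm (ym 2) = !![0, 4/3, 0; 0, 0, -2/3; -2, 0, 0] := by
    rw [ff_m', cc_m, inverse_diag good_two.h4 good_two.h2 one_ne_zero]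
    ext i j
    fin_cases i <;> fin_cases j <;> simp [Matrix.mul_apply, Fin.sum_univ_three] <;> norm_num
  refine ⟨good_two.ff, good_two.gg, good_two.ff', ?_, ?_, ?_, ?_⟩
  · rw [hr, hh]
    have : !![0, 0, -8/3; -4/7, 0, 0; 0, 8/3, 0] * !![0, 4, 0; 0, 0, 2; -2/7, 0, 0] -
        !![0, 4, 0; 0, 0, 2; -2/7, 0, 0] * !![0, 0, -8/3; -4/7, 0, 0; 0, 8/3, 0] =
        (!![64/21, 0, 0; 0, -160/21, 0; 0, 0, 96/21] : Matrix (Fin 3) (Fin 3) ℂ) := by
      ext i j
      fin_cases i <;> fin_cases j <;> simp [Matrix.mul_apply, Fin.sum_univ_three] <;> norm_num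
    rw [this]
    exact isUnit_diag (by norm_num) (by norm_num) (by norm_num)
  · rw [hr, hh']
    have : !![0, 0, -8/3; -4/7, 0, 0; 0, 8/3, 0] * !![0, 4/3, 0; 0, 0, -2/3; -2, 0, 0] -
        !![0, 4/3, 0; 0, 0, -2/3; -2, 0, 0] * !![0, 0, -8/3; -4/7, 0, 0; 0, 8/3, 0] =
        (!![128/21, 0, 0; 0, 64/63, 0; 0, 0, -64/9] : Matrix (Fin 3) (Fin 3) ℂ) := by
      ext i j
      fin_cases i <;> fin_cases j <;> simp [Matrix.mul_apply, Fin.sum_univ_three] <;> norm_num
    rw [this]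
    exact isUnit_diag (by norm_num) (by norm_num) (by norm_num)
  · rw [hr]
    apply isUnit_of_det_ne
    rw [Matrix.det_fin_three]
    simp
  · rw [hr]
    have : !![0, 0, -8/3; -4/7, 0, 0; 0, 8/3, 0] * (!![0, 0, -8/3; -4/7, 0, 0; 0, 8/3, 0] *
        !![0, 0, -8/3; -4/7, 0, 0; 0, 8/3, 0]) - algebraMap ℂ _ 4 =
        (!![4/63, 0, 0; 0, 4/63, 0; 0, 0, 4/63] : Matrix (Fin 3) (Fin 3) ℂ) := by
      rw [Matrix.algebraMap_eq_diagonal]
      ext i j
      fin_cases i <;> fin_cases j <;>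
        simp [Matrix.mul_apply, Fin.sum_univ_three, Matrix.diagonal] <;> norm_num
    rw [this]
    exact isUnit_diag (by norm_num) (by norm_num) (by norm_num)

section homs

variable (m o : Type*) [Fintype m] [DecidableEq m] [Fintype o] [DecidableEq o]

/-- the algebra map `A ↦ A ⊗ 1` -/
noncomputable def constHom : Matrix m m ℂ →ₐ[ℂ] Matrix (m × o) (m × o) ℂ where
  toFun A := Matrix.blockDiagonal fun _ => A
  map_one' := Matrix.blockDiagonal_one
  map_mul' A B := Matrix.blockDiagonal_mul _ _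
  map_zero' := Matrix.blockDiagonal_zero
  map_add' A B := Matrix.blockDiagonal_add _ _
  commutes' c := by
    ext ⟨a, b⟩ ⟨a', b'⟩
    simp only [Matrix.blockDiagonal_apply', Matrix.algebraMap_matrix_apply, Prod.mk.injEq]
    by_cases h : a = a' <;> by_cases h' : b = b' <;> simp [h, h']

end homs

section common

variable {g : ℕ}

theorem den_ne_zero_of_size (N : ℕ) (e : Expr g) (X : Fin g → Matrix (Fin N) (Fin N) ℂ)
    (h : Expr.Dom X e) : den (Fin 3 × Fin N) e ≠ 0 := by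
  have h1 := (Expr.dom_val_map (constHom (Fin N) (Fin 3)) X e h).1
  have h2 := (Expr.dom_val_map
    (Matrix.reindexAlgEquiv ℂ ℂ (Equiv.prodComm (Fin N) (Fin 3))).toAlgHom _ e h1).1
  exact den_ne_zero_of_dom _ e h2

theorem den_condE_ne_zero (N : ℕ) {i j : Fin g} (hij : i ≠ j) :
    den (Fin 3 × Fin N) (Expr.condE i j) ≠ 0 := by
  have h0 : Expr.Dom (tup i j xm (ym 2)) (Expr.condE i j) := by
    rw [dom_condE, tup_i, tup_j hij]
    exact cond_three
  have h1 := (Expr.dom_val_map (constHom (Fin 3) (Fin N)) _ _ h0).1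
  exact den_ne_zero_of_dom _ _ h1

theorem good_nat (n : ℕ) : Good ((n : ℂ) + 2) := by
  constructor
  · have : (1 : ℂ) - ((n : ℂ) + 2) = -((n + 1 : ℕ) : ℂ) := by push_cast; ring
    rw [this]
    exact neg_ne_zero.2 (Nat.cast_ne_zero.2 (Nat.succ_ne_zero n))
  · have : (1 : ℂ) + ((n : ℂ) + 2) = ((n + 3 : ℕ) : ℂ) := by push_cast; ring
    rw [this]
    exact Nat.cast_ne_zero.2 (by omega)
  · have : (1 : ℂ) + ((n : ℂ) + 2) + ((n : ℂ) + 2) ^ 2 = ((n ^ 2 + 5 * n + 7 : ℕ) : ℂ) := by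
      push_cast; ring
    rw [this]
    exact Nat.cast_ne_zero.2 (by omega)
  · have : (1 : ℂ) - ((n : ℂ) + 2) + ((n : ℂ) + 2) ^ 2 = ((n ^ 2 + 3 * n + 3 : ℕ) : ℂ) := by
      push_cast; ring
    rw [this]
    exact Nat.cast_ne_zero.2 (by omega)

theorem kpoly_ne_zero (N : ℕ) {i j : Fin g} (hij : i ≠ j) :
    kpoly (expo N) (startv N) (Expr.r0 i j) ≠ 0 := by
  let tt : Fin N → ℂ := fun n => ((n : ℕ) : ℂ) + 2
  have hgood : ∀ n, Good (tt n) := fun n => good_nat n
  let bd := Matrix.blockDiagonalRingHom (Fin 3) (Fin N) ℂ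
  let xx : Fin N → Matrix (Fin 3) (Fin 3) ℂ := fun _ => xm
  let yy : Fin N → Matrix (Fin 3) (Fin 3) ℂ := fun n => ym (tt n)
  have hf : IsUnit (ff xx yy) := by
    rw [Pi.isUnit_iff]
    intro n
    have : (ff xx yy) n = ff xm (ym (tt n)) := map_ff' (Pi.evalRingHom _ n) xx yy
    rw [this]
    exact (hgood n).ff
  have hg : IsUnit (gg xx yy) := by
    rw [Pi.isUnit_iff]
    intro n
    have : (gg xx yy) n = gg xm (ym (tt n)) := map_gg' (Pi.evalRingHom _ n) xx yy
    rw [this]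
    exact (hgood n).gg
  have hr : rr xx yy = fun n => rr xm (ym (tt n)) := by
    ext1 n
    exact map_rr' (Pi.evalRingHom (fun _ => Matrix (Fin 3) (Fin 3) ℂ) n) hf hg
  let X : Fin g → Matrix (Fin 3 × Fin N) (Fin 3 × Fin N) ℂ := tup i j (bd xx) (bd yy)
  have hXi : X i = bd xx := tup_i i j _ _
  have hXj : X j = bd yy := tup_j hij _ _
  have hdom : Expr.Dom X (Expr.r0 i j) := by
    rw [dom_r0, hXi, hXj, ← map_ff', ← map_gg']
    exact ⟨hg.map bd, hf.map bd⟩
  have hval : Expr.val X (Expr.r0 i j) = Matrix.blockDiagonal fun n =>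
      wsh (- tt n ^ 2 * (1 + tt n + tt n ^ 2)⁻¹) (2 * tt n ^ 2 * (1 - tt n + tt n ^ 2)⁻¹)
        (2 * tt n ^ 2 * (1 - tt n)⁻¹ * (1 + tt n)⁻¹) := by
    rw [val_r0, hXi, hXj, ← map_rr' bd hf hg, hr]
    show Matrix.blockDiagonal (fun n => rr xm (ym (tt n))) = _
    congr 1
    ext1 n
    rw [(hgood n).rr]
    rfl
  intro h0
  have h1 := (ev_kpoly (expo N) (startv N) (Expr.r0 i j) X hdom).2
  apply h1
  · rw [hval]
    have ht0 : ∀ n, tt n ≠ 0 := by
      intro n
      have : tt n = (((n : ℕ) + 2 : ℕ) : ℂ) := by simp [tt]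
      rw [this]
      exact Nat.cast_ne_zero.2 (by omega)
    apply kry_unit
    · intro n
      exact mul_ne_zero (neg_ne_zero.2 (pow_ne_zero _ (ht0 n))) (inv_ne_zero (hgood n).h3)
    · intro n
      exact mul_ne_zero (mul_ne_zero two_ne_zero (pow_ne_zero _ (ht0 n)))
        (inv_ne_zero (hgood n).h4)
    · intro n n' hnn
      simp only at hnn
      have key : ∀ n, (- tt n ^ 2 * (1 + tt n + tt n ^ 2)⁻¹) *
          (2 * tt n ^ 2 * (1 - tt n + tt n ^ 2)⁻¹) *
          (2 * tt n ^ 2 * (1 - tt n)⁻¹ * (1 + tt n)⁻¹) * (1 - tt n ^ 6) = -4 * tt n ^ 6 := by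
        intro n
        have g1 := (hgood n).h1
        have g2 := (hgood n).h2
        have g3 := (hgood n).h3
        have g4 := (hgood n).h4
        field_simp
        ring
      have k1 := key n
      have k2 := key n'
      rw [← hnn] at k2
      set Q := (- tt n ^ 2 * (1 + tt n + tt n ^ 2)⁻¹) *
          (2 * tt n ^ 2 * (1 - tt n + tt n ^ 2)⁻¹) *
          (2 * tt n ^ 2 * (1 - tt n)⁻¹ * (1 + tt n)⁻¹) with hQ
      -- Q(1 - T) = -4T, Q(1 - T') = -4T'
      have hQ4 : Q ≠ 4 := by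
        intro h4
        rw [h4] at k1
        have : (4 : ℂ) = 0 := by linear_combination k1
        norm_num at this
      have k3 : (Q - 4) * (tt n ^ 6 - tt n' ^ 6) = 0 := by
        linear_combination k2 - k1
      have k4 : tt n ^ 6 = tt n' ^ 6 := by
        rcases mul_eq_zero.1 k3 with h | h
        · exact absurd (sub_eq_zero.1 h) hQ4
        · exact sub_eq_zero.1 h
      have k5 : ((n : ℕ) + 2) ^ 6 = ((n' : ℕ) + 2) ^ 6 := by
        have : ((((n : ℕ) + 2) ^ 6 : ℕ) : ℂ) = ((((n' : ℕ) + 2) ^ 6 : ℕ) : ℂ) := by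
          push_cast
          exact k4
        exact_mod_cast this
      have k6 : (n : ℕ) + 2 = (n' : ℕ) + 2 :=
        Nat.pow_left_injective (by norm_num : (6 : ℕ) ≠ 0) k5
      exact Fin.ext (by omega)
  · rw [h0, map_zero]

/-- a common generic point -/
theorem exists_common (N : ℕ) (e : Expr g) (X0 : Fin g → Matrix (Fin N) (Fin N) ℂ)
    (h : Expr.Dom X0 e) {i j : Fin g} (hij : i ≠ j) :
    ∃ X : Fin g → Matrix (Fin 3 × Fin N) (Fin 3 × Fin N) ℂ,
      Expr.Dom X e ∧ CondAt (X i) (X j) ∧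
      IsUnit (kry (expo N) (startv N) (rr (X i) (X j))) := by
  have h1 := den_ne_zero_of_size N e X0 h
  have h2 := den_condE_ne_zero N hij
  have h3 := kpoly_ne_zero N hij
  obtain ⟨X, hX⟩ := exists_ev_ne_zero _ (mul_ne_zero (mul_ne_zero h1 h2) h3)
  rw [map_mul, map_mul] at hX
  have e3 := right_ne_zero_of_mul hX
  have e2 := right_ne_zero_of_mul (left_ne_zero_of_mul hX)
  have e1 := left_ne_zero_of_mul (left_ne_zero_of_mul hX)
  have d1 : Expr.Dom X e := (dom_iff X e).2 (isUnit_iff_ne_zero.2 e1)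
  have d2 : CondAt (X i) (X j) :=
    (dom_condE X i j).1 ((dom_iff X _).2 (isUnit_iff_ne_zero.2 e2))
  refine ⟨X, d1, d2, ?_⟩
  have d3 : Expr.Dom X (Expr.r0 i j) := (dom_r0 X i j).2 ⟨d2.g, d2.f⟩
  have := (ev_kpoly _ _ _ X d3).1 e3
  rwa [val_r0] at this

end common

end Pool.Agent.MP_240e45_ag
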