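import Pool.Agent.Lib.MP_240e45_ag.Points

/-! Cyclic vectors and commutants. -/

namespace Pool.Agent.MP_240e45_ag

open Matrix

section kry

variable {ι : Type*} [Fintype ι] [DecidableEq ι] {R : Type*} [CommRing R]

/-- Krylov matrix -/
def kry (e : ι → ℕ) (v : ι → R) (M : Matrix ι ι R) : Matrix ι ι R :=
  Matrix.of fun a c => (M ^ (e c) *ᵥ v) a

theorem kry_mulVec (e : ι → ℕ) (v : ι → R) (M : Matrix ι ι R) (s : ι → R) :
    kry e v M *ᵥ s = ∑ c, s c • (M ^ (e c) *ᵥ v) := by
  ext a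
  simp [Matrix.mulVec, dotProduct, kry, mul_comm]

/-- matrices commuting with a matrix having a cyclic vector act as scalars on eigenvectors -/
theorem commutant (e : ι → ℕ) (v : ι → R) (M B : Matrix ι ι R) (hk : IsUnit (kry e v M))
    (hc : Commute B M) {w : R} {W : ι → R} (hW : M *ᵥ W = w • W) :
    ∃ S : R, B *ᵥ W = S • W := by
  set s : ι → R := Ring.inverse (kry e v M) *ᵥ (B *ᵥ v) with hs
  have h1 : kry e v M *ᵥ s = B *ᵥ v := by
    rw [hs, Matrix.mulVec_mulVec, Ring.mul_inverse_cancel _ hk, Matrix.one_mulVec]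
  set P : Matrix ι ι R := ∑ c, s c • M ^ (e c) with hP
  have hPv : P *ᵥ v = B *ᵥ v := by
    rw [← h1, kry_mulVec, hP, Matrix.sum_mulVec]
    exact Finset.sum_congr rfl fun c _ => Matrix.smul_mulVec _ _ _
  have hPM : Commute P M := by
    rw [hP]
    exact Commute.sum_left _ _ _ fun c _ => ((Commute.refl M).pow_left _).smul_left _
  have h2 : B * kry e v M = P * kry e v M := by
    ext a c
    have e1 : ∀ Q : Matrix ι ι R, (Q * kry e v M) a c = (Q *ᵥ (M ^ (e c) *ᵥ v)) a := by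
      intro Q
      simp [Matrix.mul_apply, Matrix.mulVec, dotProduct, kry]
    rw [e1, e1, Matrix.mulVec_mulVec, Matrix.mulVec_mulVec, (hc.pow_right _).eq,
      (hPM.pow_right _).eq, ← Matrix.mulVec_mulVec, ← Matrix.mulVec_mulVec, hPv]
  have h3 : B = P := hk.mul_right_cancel h2
  have hpow : ∀ k : ℕ, M ^ k *ᵥ W = w ^ k • W := by
    intro k
    induction k with
    | zero => simp
    | succ k ih =>
      rw [pow_succ, ← Matrix.mulVec_mulVec, hW, Matrix.mulVec_smul, ih, smul_smul, pow_succ,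
        mul_comm]
  refine ⟨∑ c, s c * w ^ (e c), ?_⟩
  rw [h3, hP, Matrix.sum_mulVec, Finset.sum_smul]
  refine Finset.sum_congr rfl fun c _ => ?_
  rw [Matrix.smul_mulVec, hpow, smul_smul]

theorem kry_smul (e : ι → ℕ) (v : ι → R) (M : Matrix ι ι R) (d : R) :
    kry e v (d • M) = kry e v M * Matrix.diagonal (fun c => d ^ (e c)) := by
  ext a c
  rw [Matrix.mul_diagonal]
  show ((d • M) ^ (e c) *ᵥ v) a = (M ^ (e c) *ᵥ v) a * d ^ (e c)
  rw [smul_pow, Matrix.smul_mulVec, Pi.smul_apply, smul_eq_mul, mul_comm]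

theorem kry_map {S : Type*} [CommRing S] (f : R →+* S) (e : ι → ℕ) (v : ι → R)
    (M : Matrix ι ι R) : (kry e v M).map f = kry e (f ∘ v) (M.map f) := by
  ext a c
  show f ((M ^ (e c) *ᵥ v) a) = ((M.map f) ^ (e c) *ᵥ (f ∘ v)) a
  rw [RingHom.map_mulVec]
  have : (M ^ (e c)).map f = (M.map f) ^ (e c) := map_pow f.mapMatrix M (e c)
  rw [this]

end kry

section poly

variable {g : ℕ} {ι : Type*} [Fintype ι] [DecidableEq ι]

/-- the polynomial expressing cyclicity -/
noncomputable def kpoly (e : ι → ℕ) (v : ι → ℂ) (a : Expr g) : PolyEnt g ι :=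
  (kry e (MvPolynomial.C ∘ v) (num ι a)).det

theorem ev_kpoly (e : ι → ℕ) (v : ι → ℂ) (a : Expr g) (X : Fin g → Matrix ι ι ℂ)
    (h : Expr.Dom X a) :
    ev X (kpoly e v a) ≠ 0 ↔ IsUnit (kry e v (Expr.val X a)) := by
  have h1 : ev X (kpoly e v a) =
      (kry e v ((num ι a).map (ev X : PolyEnt g ι →+* ℂ))).det := by
    have := RingHom.map_det (ev X : PolyEnt g ι →+* ℂ) (kry e (MvPolynomial.C ∘ v) (num ι a))
    rw [RingHom.mapMatrix_apply, kry_map] at this
    have hv : (ev X : PolyEnt g ι →+* ℂ) ∘ (MvPolynomial.C ∘ v) = v := by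
      ext c; simp [ev]
    rw [hv] at this
    exact this
  have h2 : (num ι a).map (ev X : PolyEnt g ι →+* ℂ) = ev X (den ι a) • Expr.val X a :=
    (den_smul_val X a h).symm
  have h3 : ev X (den ι a) ≠ 0 := ((dom_iff X a).1 h).ne_zero
  rw [h1, h2, kry_smul, Matrix.det_mul, Matrix.det_diagonal, Matrix.isUnit_iff_isUnit_det,
    isUnit_iff_ne_zero]
  constructor
  · exact fun h => left_ne_zero_of_mul h
  · intro h
    exact mul_ne_zero h (Finset.prod_ne_zero_iff.2 fun c _ => pow_ne_zero _ h3)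

end poly

section witness

variable {N : ℕ}

/-- weighted shift -/
def wsh (a b c : ℂ) : Matrix (Fin 3) (Fin 3) ℂ := !![0, 0, c; a, 0, 0; 0, b, 0]

theorem wsh_cube (a b c : ℂ) : wsh a b c ^ 3 = (a * b * c) • (1 : Matrix (Fin 3) (Fin 3) ℂ) := by
  rw [pow_succ, pow_two]
  ext i j
  fin_cases i <;> fin_cases j <;>
    simp [wsh, Matrix.mul_apply, Fin.sum_univ_three] <;> first | (left; ring) | ring

/-- the vector `e_0` -/
def e0v : Fin 3 → ℂ := fun b => if b = 0 then 1 else 0

/-- the coefficients -/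
def kap (a b : ℂ) : Fin 3 → ℂ
  | 0 => 1
  | 1 => a
  | 2 => a * b

theorem wsh_pow (a b c : ℂ) (l : ℕ) (k k' : Fin 3) :
    ((wsh a b c ^ (3 * l + (k : ℕ))) *ᵥ e0v) k' =
      if k' = k then (a * b * c) ^ l * kap a b k else 0 := by
  rw [pow_add, pow_mul, wsh_cube, smul_pow, one_pow, Matrix.smul_mul, one_mul,
    Matrix.smul_mulVec, Pi.smul_apply, smul_eq_mul]
  have : (wsh a b c ^ (k : ℕ) *ᵥ e0v) k' = if k' = k then kap a b k else 0 := by
    match k with
    | 0 =>
      simp only [Fin.val_zero, pow_zero, Matrix.one_mulVec, e0v, kap]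
    | 1 =>
      simp only [Fin.val_one, pow_one]
      fin_cases k' <;> simp [wsh, e0v, kap, Matrix.mulVec, dotProduct, Fin.sum_univ_three]
    | 2 =>
      simp only [Fin.val_two, pow_two]
      fin_cases k' <;> simp [wsh, e0v, kap, Matrix.mulVec, dotProduct, Fin.sum_univ_three,
        Matrix.mul_apply]
      ring
  rw [this]
  split_ifs <;> simp

/-- exponents -/
def expo (N : ℕ) : Fin 3 × Fin N → ℕ := fun c => 3 * (c.2 : ℕ) + (c.1 : ℕ)
/-- start vector -/
def startv (N : ℕ) : Fin 3 × Fin N → ℂ := fun a => e0v a.1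

theorem blockDiagonal_mulVec (M : Fin N → Matrix (Fin 3) (Fin 3) ℂ) (z : Fin 3 → ℂ)
    (a : Fin 3 × Fin N) :
    (Matrix.blockDiagonal M *ᵥ (fun c : Fin 3 × Fin N => z c.1)) a = (M a.2 *ᵥ z) a.1 := by
  obtain ⟨k, n⟩ := a
  simp only [Matrix.mulVec, dotProduct, Fintype.sum_prod_type, Matrix.blockDiagonal_apply']
  refine Finset.sum_congr rfl fun c _ => ?_
  rw [Finset.sum_eq_single n]
  · simp
  · intro b _ hb
    rw [if_neg hb.symm, zero_mul]
  · simp

theorem kry_unit (A B C : Fin N → ℂ) (hA : ∀ n, A n ≠ 0) (hB : ∀ n, B n ≠ 0)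
    (hinj : Function.Injective fun n => A n * B n * C n) :
    IsUnit (kry (expo N) (startv N) (Matrix.blockDiagonal fun n => wsh (A n) (B n) (C n))) := by
  rw [Matrix.isUnit_iff_isUnit_det, isUnit_iff_ne_zero]
  intro hdet
  obtain ⟨s, hs, hs0⟩ := Matrix.exists_mulVec_eq_zero_iff.2 hdet
  apply hs
  have entry : ∀ (k' : Fin 3) (n : Fin N) (k : Fin 3) (l : Fin N),
      kry (expo N) (startv N) (Matrix.blockDiagonal fun n => wsh (A n) (B n) (C n)) (k', n) (k, l)
      = if k' = k then (A n * B n * C n) ^ (l : ℕ) * kap (A n) (B n) k else 0 := by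
    intro k' n k l
    show ((Matrix.blockDiagonal fun n => wsh (A n) (B n) (C n)) ^ (3 * (l : ℕ) + (k : ℕ)) *ᵥ
      (fun c : Fin 3 × Fin N => e0v c.1)) (k', n) = _
    rw [← Matrix.blockDiagonal_pow, blockDiagonal_mulVec]
    exact wsh_pow _ _ _ _ _ _
  have hk0 : ∀ n k, kap (A n) (B n) k ≠ 0 := by
    intro n k
    match k with
    | 0 => exact one_ne_zero
    | 1 => exact hA n
    | 2 => exact mul_ne_zero (hA n) (hB n)
  have main : ∀ k : Fin 3, (fun l => s (k, l)) = 0 := by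
    intro k
    refine Matrix.eq_zero_of_forall_index_sum_pow_mul_eq_zero hinj ?_
    intro n
    have h1 := congrFun hs0 (k, n)
    simp only [Matrix.mulVec, dotProduct, Fintype.sum_prod_type, Pi.zero_apply] at h1
    rw [Finset.sum_eq_single k] at h1
    · simp only [entry, if_true] at h1
      have h2 : kap (A n) (B n) k * ∑ l : Fin N, (A n * B n * C n) ^ (l : ℕ) * s (k, l) = 0 := by
        rw [← h1, Finset.mul_sum]
        exact Finset.sum_congr rfl fun l _ => by ring
      exact (mul_eq_zero.1 h2).resolve_left (hk0 n k)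
    · intro b _ hb
      refine Finset.sum_eq_zero fun l _ => ?_
      rw [entry, if_neg hb.symm, zero_mul]
    · simp
  ext ⟨k, l⟩
  exact congrFun (main k) l

end witness

end Pool.Agent.MP_240e45_ag
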