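import Pool.Agent.Lib.MP_240e45_ag.Cond

/-! Eigen-data at a generic point and its deformation along the cubic curve. -/

namespace Pool.Agent.MP_240e45_ag

open Matrix

section eigen

variable {ι : Type*} [Fintype ι] [DecidableEq ι]

theorem exists_eigen [Nonempty ι] (M : Matrix ι ι ℂ) :
    ∃ (w : ℂ) (Z : ι → ℂ), Z ≠ 0 ∧ M *ᵥ Z = w • Z := by
  obtain ⟨μ, hμ⟩ := Module.End.exists_eigenvalue (Matrix.toLin' M)
  obtain ⟨Z, hZ⟩ := hμ.exists_hasEigenvector
  refine ⟨μ, Z, hZ.2, ?_⟩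
  have := hZ.apply_eq_smul
  rwa [Matrix.toLin'_apply] at this

theorem exists_row {W0 W1 : ι → ℂ} (h0 : W0 ≠ 0) (h : ∀ θ : ℂ, W1 ≠ θ • W0) :
    ∃ p : ι → ℂ, p ⬝ᵥ W0 = 0 ∧ p ⬝ᵥ W1 = 1 := by
  obtain ⟨a, ha⟩ := Function.ne_iff.1 h0
  simp only [Pi.zero_apply] at ha
  have hb : ∃ b, W0 a * W1 b - W0 b * W1 a ≠ 0 := by
    by_contra hcon
    push Not at hcon
    apply h (W1 a / W0 a)
    ext b
    have := hcon b
    simp only [Pi.smul_apply, smul_eq_mul]
    field_simp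
    linear_combination this
  obtain ⟨b, hb⟩ := hb
  refine ⟨(W0 a * W1 b - W0 b * W1 a)⁻¹ • (W0 a • Pi.single b 1 - W0 b • Pi.single a 1), ?_, ?_⟩
  · rw [smul_dotProduct, sub_dotProduct, smul_dotProduct, smul_dotProduct,
      single_dotProduct, single_dotProduct]
    simp only [smul_eq_mul]
    ring
  · rw [smul_dotProduct, sub_dotProduct, smul_dotProduct, smul_dotProduct,
      single_dotProduct, single_dotProduct]
    simp only [smul_eq_mul, one_mul]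
    exact inv_mul_cancel₀ hb

structure EigenData (x y : Matrix ι ι ℂ) (u v : ℂ) (W0 W1 W2 p q : ι → ℂ) : Prop where
  huv : u * v * (u + v) = 1
  hne : u ≠ v
  hW0 : W0 ≠ 0
  ker : IsKerM x y u v W0 W1 W2
  p0 : p ⬝ᵥ W0 = 0
  p1 : p ⬝ᵥ W1 = 1
  q0 : q ⬝ᵥ W0 = 0
  q2 : q ⬝ᵥ W2 = 1

theorem indep_of_cond {x y : Matrix ι ι ℂ} (h : CondAt x y) {u v : ℂ}
    (huv : u * v * (u + v) = 1) {W0 W1 W2 : ι → ℂ} (hW0 : W0 ≠ 0)
    (hk : IsKerM x y u v W0 W1 W2) : (∀ θ : ℂ, W1 ≠ θ • W0) ∧ (∀ θ : ℂ, W2 ≠ θ • W0) := by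
  have hr := IsKerM.rr_mulVec huv h.f h.g hk
  have aux : ∀ (P : Matrix ι ι ℂ) (μ : ℂ), P *ᵥ W0 = μ • W0 →
      IsUnit (rr x y * P - P * rr x y) → False := by
    intro P μ hP hu
    apply hW0
    apply isUnit_mulVec_inj hu
    rw [Matrix.sub_mulVec, ← Matrix.mulVec_mulVec, ← Matrix.mulVec_mulVec, hP, hr,
      Matrix.mulVec_smul, Matrix.mulVec_smul, hr, hP, smul_smul, smul_smul, mul_comm, sub_self,
      Matrix.mulVec_zero]
  have hfinv : ∀ {a : Matrix ι ι ℂ} (ha : IsUnit a) (z z' : ι → ℂ), a *ᵥ z = z' →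
      Ring.inverse a *ᵥ z' = z := by
    intro a ha z z' hz
    rw [← hz, Matrix.mulVec_mulVec, Ring.inverse_mul_cancel _ ha, Matrix.one_mulVec]
  constructor
  · intro θ hθ
    have huv' : v * u * (v + u) = 1 := by rw [← huv]; ring
    have hk' : IsKerM y x v u W0 W2 W1 := IsKer.swap hk
    have e1 := IsKerM.F_W2 huv' hk'
    have e2 : cc x y *ᵥ W0 = (u + v) • (ff y x *ᵥ W1) := by
      rw [e1, cc_mulVec, cc_mulVec, smul_neg, smul_smul]
      have : (u + v) * (v * u) = 1 := by rw [← huv]; ring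
      rw [this, one_smul, neg_sub]
    refine aux (Ring.inverse (ff y x) * cc x y) ((u + v) * θ) ?_ h.com2
    rw [← Matrix.mulVec_mulVec]
    have e3 := hfinv h.f' ((u + v) • W1) (cc x y *ᵥ W0) (by rw [e2, Matrix.mulVec_smul])
    rw [e3, hθ, smul_smul]
  · intro θ hθ
    have e1 := IsKerM.F_W2 huv hk
    have e2 : cc x y *ᵥ W0 = -((u + v) • (ff x y *ᵥ W2)) := by
      rw [e1, smul_neg, smul_smul, neg_neg]
      have : (u + v) * (u * v) = 1 := by rw [← huv]; ring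
      rw [this, one_smul]
    refine aux (Ring.inverse (ff x y) * cc x y) (-((u + v) * θ)) ?_ h.com1
    rw [← Matrix.mulVec_mulVec]
    have e3 := hfinv h.f (-((u + v) • W2)) (cc x y *ᵥ W0)
      (by rw [e2, Matrix.mulVec_neg, Matrix.mulVec_smul])
    rw [e3, hθ, smul_smul, neg_smul]

theorem exists_eigenData [Nonempty ι] {x y : Matrix ι ι ℂ} (h : CondAt x y) :
    ∃ (u v : ℂ) (W0 W1 W2 p q : ι → ℂ), EigenData x y u v W0 W1 W2 p q := by
  obtain ⟨w, Z, hZ, hrZ⟩ := exists_eigen (rr x y)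
  have hw0 : w ≠ 0 := by
    rintro rfl
    apply hZ
    apply isUnit_mulVec_inj h.r
    rw [hrZ, zero_smul, Matrix.mulVec_zero]
  have hw4 : w ^ 3 ≠ 4 := by
    intro h4
    apply hZ
    apply isUnit_mulVec_inj h.cube
    rw [Matrix.sub_mulVec, ← Matrix.mulVec_mulVec, ← Matrix.mulVec_mulVec, hrZ,
      Matrix.mulVec_smul, hrZ, Matrix.mulVec_smul, Matrix.mulVec_smul, hrZ,
      Matrix.algebraMap_eq_diagonal, Matrix.mulVec_zero, sub_eq_zero]
    ext a
    simp only [Pi.smul_apply, smul_eq_mul, Matrix.mulVec_diagonal, Pi.algebraMap_apply,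
      Algebra.algebraMap_self, RingHom.id_apply]
    rw [← h4]; ring
  obtain ⟨δ, hδ⟩ := IsAlgClosed.exists_pow_nat_eq (w ^ 2 - 4 / w) (n := 2) (by norm_num)
  have hδ0 : δ ≠ 0 := by
    rintro rfl
    apply hw4
    have : w ^ 2 - 4 / w = 0 := by rw [← hδ]; ring
    field_simp at this
    linear_combination this
  set u := (w + δ) / 2 with hu
  set v := (w - δ) / 2 with hv
  have huvw : u + v = w := by rw [hu, hv]; ring
  have hmul : u * v * w = 1 := by
    have : u * v = (w ^ 2 - δ ^ 2) / 4 := by rw [hu, hv]; ring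
    rw [this, hδ]
    field_simp
    ring
  have huv : u * v * (u + v) = 1 := by rw [huvw]; exact hmul
  have hne : u ≠ v := by
    intro huv'
    apply hδ0
    have : u - v = δ := by rw [hu, hv]; ring
    rw [← this, huv', sub_self]
  have huv' : v * u * (v + u) = 1 := by rw [← huv]; ring
  obtain ⟨W0, W1, W2, hW0, hk | hk⟩ := exists_ker huv h.f h.g hZ (by rw [hrZ, huvw])
  · obtain ⟨i1, i2⟩ := indep_of_cond h huv hW0 hk
    obtain ⟨p, p0, p1⟩ := exists_row hW0 i1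
    obtain ⟨q, q0, q2⟩ := exists_row hW0 i2
    exact ⟨u, v, W0, W1, W2, p, q, huv, hne, hW0, hk, p0, p1, q0, q2⟩
  · obtain ⟨i1, i2⟩ := indep_of_cond h huv' hW0 hk
    obtain ⟨p, p0, p1⟩ := exists_row hW0 i1
    obtain ⟨q, q0, q2⟩ := exists_row hW0 i2
    exact ⟨v, u, W0, W1, W2, p, q, huv', hne.symm, hW0, hk, p0, p1, q0, q2⟩

end eigen

end Pool.Agent.MP_240e45_ag
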