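import Mathlib

/-! Formal rational expressions in `g` freely noncommuting variables, and their evaluation. -/

namespace Pool.Agent.MP_240e45_ag

/-- Formal rational expressions in `g` freely noncommuting variables with complex coefficients:
built from constants and the variables by sums, products and formal inverses. -/
inductive Expr (g : ℕ) : Type
  | const : ℂ → Expr g
  | var : Fin g → Expr g
  | add : Expr g → Expr g → Expr g
  | mul : Expr g → Expr g → Expr g
  | inv : Expr g → Expr g

namespace Expr

variable {g : ℕ} {A : Type*} [Ring A] [Algebra ℂ A]

/-- The value of an expression at a tuple `X` of elements of a complex algebra `A`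
(for `A` an algebra of square matrices, `Ring.inverse` is the matrix inverse); it is only
meaningful when `Dom X e` holds. -/
noncomputable def val (X : Fin g → A) : Expr g → A
  | const c => algebraMap ℂ A c
  | var i => X i
  | add a b => val X a + val X b
  | mul a b => val X a * val X b
  | inv a => Ring.inverse (val X a)

/-- `Dom X e`: the expression `e` is defined at the tuple `X`, i.e. everything that has to be
inverted when evaluating `e` at `X` is invertible in `A`. -/
def Dom (X : Fin g → A) : Expr g → Prop
  | const _ => True
  | var _ => True
  | add a b => Dom X a ∧ Dom X b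
  | mul a b => Dom X a ∧ Dom X b
  | inv a => Dom X a ∧ IsUnit (val X a)

/-- An expression is nondegenerate if it is defined at some tuple of complex matrices. -/
def Nondeg (e : Expr g) : Prop :=
  ∃ n : ℕ, 0 < n ∧ ∃ X : Fin g → Matrix (Fin n) (Fin n) ℂ, Dom X e

/-- Two expressions agree if they have the same value at every tuple of complex matrices at
which both are defined. -/
def Agree (a b : Expr g) : Prop :=
  ∀ n : ℕ, 0 < n → ∀ X : Fin g → Matrix (Fin n) (Fin n) ℂ, Dom X a → Dom X b → val X a = val X b

/-- Horner scheme: `horner a [c₀, c₁, …, cₙ]` is the expression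
`c₀ + a (c₁ + a (c₂ + ⋯ + a (cₙ + a 0) ⋯))`. -/
def horner (a : Expr g) : List ℂ → Expr g
  | [] => const 0
  | c :: l => add (const c) (mul a (horner a l))

/-- the expression `p(a)` for a complex polynomial `p` -/
noncomputable def poly (p : Polynomial ℂ) (a : Expr g) : Expr g :=
  horner a ((List.range (p.natDegree + 1)).map p.coeff)

/-- the expression `f(a) = p(a) q(a)⁻¹` for a univariate rational function `f = p / q`
in lowest terms -/
noncomputable def comp (f : RatFunc ℂ) (a : Expr g) : Expr g :=
  mul (poly f.num a) (inv (poly f.denom a))

end Expr

/-- a Möbius function `(at+b)/(ct+d)`, `ad-bc ≠ 0` -/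
def IsMobius (f : RatFunc ℂ) : Prop :=
  ∃ a b c d : ℂ, a * d - b * c ≠ 0 ∧
    f = (RatFunc.C a * RatFunc.X + RatFunc.C b) / (RatFunc.C c * RatFunc.X + RatFunc.C d)

/-- The Zariski topology on `g`-tuples of complex `n × n` matrices: the topology generated by
the sets where a polynomial in the matrix entries does not vanish. -/
def zariski (g n : ℕ) : TopologicalSpace (Fin g → Matrix (Fin n) (Fin n) ℂ) :=
  TopologicalSpace.generateFrom
    {s | ∃ p : MvPolynomial (Fin g × Fin n × Fin n) ℂ,
      s = {X | MvPolynomial.eval (fun t => X t.1 t.2.1 t.2.2) p ≠ 0}}

end Pool.Agent.MP_240e45_ag
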