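import Pool.Agent.Lib.MP_240e45_ag.Defs

/-! Functoriality of the evaluation of formal rational expressions. -/

namespace Pool.Agent.MP_240e45_ag

namespace Expr

variable {g : ℕ} {A : Type*} [Ring A] [Algebra ℂ A]

section functorial

variable {B : Type*} [Ring B] [Algebra ℂ B] (φ : A →ₐ[ℂ] B)

theorem ringInverse_map {a : A} (ha : IsUnit a) :
    Ring.inverse (φ a) = φ (Ring.inverse a) := by
  have h1 : φ a * φ (Ring.inverse a) = 1 := by
    rw [← map_mul, Ring.mul_inverse_cancel _ ha, map_one]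
  have hb : IsUnit (φ a) := ha.map φ
  calc Ring.inverse (φ a) = Ring.inverse (φ a) * (φ a * φ (Ring.inverse a)) := by
        rw [h1, mul_one]
    _ = φ (Ring.inverse a) := by
        rw [← mul_assoc, Ring.inverse_mul_cancel _ hb, one_mul]

theorem dom_val_map (X : Fin g → A) (e : Expr g) (h : Dom X e) :
    Dom (fun i => φ (X i)) e ∧ val (fun i => φ (X i)) e = φ (val X e) := by
  induction e with
  | const c => exact ⟨trivial, by simp [val]⟩
  | var i => exact ⟨trivial, rfl⟩
  | add a b iha ihb =>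
    obtain ⟨ha, hb⟩ := h
    obtain ⟨ha1, ha2⟩ := iha ha
    obtain ⟨hb1, hb2⟩ := ihb hb
    exact ⟨⟨ha1, hb1⟩, by simp [val, ha2, hb2]⟩
  | mul a b iha ihb =>
    obtain ⟨ha, hb⟩ := h
    obtain ⟨ha1, ha2⟩ := iha ha
    obtain ⟨hb1, hb2⟩ := ihb hb
    exact ⟨⟨ha1, hb1⟩, by simp [val, ha2, hb2]⟩
  | inv a iha =>
    obtain ⟨ha, hu⟩ := h
    obtain ⟨ha1, ha2⟩ := iha ha
    refine ⟨⟨ha1, ?_⟩, ?_⟩
    · rw [ha2]; exact hu.map φ
    · simp only [val]
      rw [ha2, ringInverse_map φ hu]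

theorem dom_of_map [IsLocalHom φ] (X : Fin g → A) (e : Expr g)
    (h : Dom (fun i => φ (X i)) e) : Dom X e := by
  induction e with
  | const c => trivial
  | var i => trivial
  | add a b iha ihb => exact ⟨iha h.1, ihb h.2⟩
  | mul a b iha ihb => exact ⟨iha h.1, ihb h.2⟩
  | inv a iha =>
    have ha := iha h.1
    refine ⟨ha, ?_⟩
    have h2 := h.2
    rw [(dom_val_map φ X a ha).2] at h2
    exact isUnit_of_map_unit φ _ h2

end functorial

end Expr

end Pool.Agent.MP_240e45_ag
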