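import Mathlib

/-! The curve `uv(u+v) = 1` has no nonconstant points over a rational function field. -/

namespace Pool.Agent.MP_240e45_ag

open Polynomial

theorem isUnit_cube {p : ℂ[X]} (hp : IsUnit p) : ∃ q : ℂ[X], q ^ 3 = p := by
  obtain ⟨c, hc, rfl⟩ := Polynomial.isUnit_iff.1 hp
  obtain ⟨d, hd⟩ := IsAlgClosed.exists_pow_nat_eq c (n := 3) (by norm_num)
  exact ⟨C d, by rw [← C_pow, hd]⟩

theorem cube_of_coprime {a b c : ℂ[X]} (hab : IsCoprime a b) (h : a * b = c ^ 3) :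
    ∃ d : ℂ[X], d ^ 3 = a := by
  obtain ⟨d, hd⟩ := exists_associated_pow_of_mul_eq_pow' hab h
  obtain ⟨e, he⟩ := hd
  obtain ⟨q, hq⟩ := isUnit_cube e.isUnit
  exact ⟨d * q, by rw [mul_pow, hq, he]⟩

theorem poly_const {a b c : ℂ[X]} (hab : IsCoprime a b) (hc : c ≠ 0)
    (h : a * b * (a + b) = c ^ 3) :
    a.natDegree = 0 ∧ b.natDegree = 0 ∧ c.natDegree = 0 := by
  have hne : a * b * (a + b) ≠ 0 := by rw [h]; exact pow_ne_zero _ hc
  have ha : a ≠ 0 := left_ne_zero_of_mul (left_ne_zero_of_mul hne)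
  have hb : b ≠ 0 := right_ne_zero_of_mul (left_ne_zero_of_mul hne)
  have hs : a + b ≠ 0 := right_ne_zero_of_mul hne
  have h1 : IsCoprime a (a + b) := by
    have := hab.add_mul_left_right 1
    rw [mul_one, add_comm] at this
    exact this
  have h2 : IsCoprime b (a + b) := by
    have := hab.symm.add_mul_left_right 1
    rwa [mul_one] at this
  obtain ⟨α, hα⟩ := cube_of_coprime (c := c) (hab.mul_right h1) (by rw [← h]; ring)
  obtain ⟨β, hβ⟩ := cube_of_coprime (c := c) (hab.symm.mul_right h2) (by rw [← h]; ring)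
  obtain ⟨γ, hγ⟩ := cube_of_coprime (c := c) (h1.symm.mul_right h2.symm) (by rw [← h]; ring)
  have hα0 : α ≠ 0 := by rintro rfl; apply ha; rw [← hα]; simp
  have hβ0 : β ≠ 0 := by rintro rfl; apply hb; rw [← hβ]; simp
  have hγ0 : γ ≠ 0 := by rintro rfl; apply hs; rw [← hγ]; simp
  have hco : IsCoprime α β := by
    rw [← hα, ← hβ] at hab
    exact (IsCoprime.pow_iff (by norm_num) (by norm_num)).1 hab
  have hflt := Polynomial.flt (k := ℂ) (n := 3) le_rfl (by norm_num) hα0 hβ0 hγ0 hco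
    (by rw [hα, hβ, hγ])
  have da : a.natDegree = 0 := by rw [← hα, natDegree_pow, hflt.1, mul_zero]
  have db : b.natDegree = 0 := by rw [← hβ, natDegree_pow, hflt.2.1, mul_zero]
  have ds : (a + b).natDegree = 0 := by rw [← hγ, natDegree_pow, hflt.2.2, mul_zero]
  have dc : (c ^ 3).natDegree = 0 := by
    rw [← h, natDegree_mul (mul_ne_zero ha hb) hs, natDegree_mul ha hb, da, db, ds]
  rw [natDegree_pow] at dc
  exact ⟨da, db, by omega⟩

/-- the cubic has only constant points over `ℂ(T)` -/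
theorem ratFunc_const (g₁ g₂ : RatFunc ℂ) (h : g₁ * g₂ * (g₁ + g₂) = 1) :
    ∃ c : ℂ, g₁ + g₂ = RatFunc.C c := by
  set A := g₁.num * g₂.denom with hA
  set B := g₂.num * g₁.denom with hB
  set D := g₁.denom * g₂.denom with hD
  have hD0 : D ≠ 0 := mul_ne_zero (RatFunc.denom_ne_zero _) (RatFunc.denom_ne_zero _)
  have i1 : algebraMap ℂ[X] (RatFunc ℂ) g₁.denom ≠ 0 :=
    RatFunc.algebraMap_ne_zero (RatFunc.denom_ne_zero _)
  have i2 : algebraMap ℂ[X] (RatFunc ℂ) g₂.denom ≠ 0 :=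
    RatFunc.algebraMap_ne_zero (RatFunc.denom_ne_zero _)
  have hD1 : algebraMap ℂ[X] (RatFunc ℂ) D ≠ 0 := RatFunc.algebraMap_ne_zero hD0
  have e1 : g₁ * algebraMap ℂ[X] (RatFunc ℂ) D = algebraMap ℂ[X] (RatFunc ℂ) A := by
    rw [hD, hA, map_mul, map_mul]
    conv_lhs => rw [← RatFunc.num_div_denom g₁]
    rw [RatFunc.num_div_denom]
    have := RatFunc.num_div_denom g₁
    rw [div_eq_iff i1] at this
    rw [this]; ring
  have e2 : g₂ * algebraMap ℂ[X] (RatFunc ℂ) D = algebraMap ℂ[X] (RatFunc ℂ) B := by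
    rw [hD, hB, map_mul, map_mul]
    have := RatFunc.num_div_denom g₂
    rw [div_eq_iff i2] at this
    rw [this]; ring
  have h3 : A * B * (A + B) = D ^ 3 := by
    apply RatFunc.algebraMap_injective ℂ
    rw [map_mul, map_mul, map_add, map_pow, ← e1, ← e2]
    calc _ = (g₁ * g₂ * (g₁ + g₂)) * (algebraMap ℂ[X] (RatFunc ℂ) D) ^ 3 := by ring
      _ = _ := by rw [h, one_mul]
  have hA0 : A ≠ 0 := by
    intro h0
    rw [h0, zero_mul, zero_mul] at h3
    exact pow_ne_zero 3 hD0 h3.symm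
  obtain ⟨G, A', B', hG0, hco, hA', hB'⟩ : ∃ G A' B' : ℂ[X], G ≠ 0 ∧ IsCoprime A' B' ∧
      A = G * A' ∧ B = G * B' := by
    have hB0 : B ≠ 0 := by
      intro h0
      rw [h0, mul_zero, zero_mul] at h3
      exact pow_ne_zero 3 hD0 h3.symm
    have hg : GCDMonoid.gcd A B ≠ 0 := by
      intro h0
      exact hA0 ((gcd_eq_zero_iff _ _).1 h0).1
    exact ⟨GCDMonoid.gcd A B, A / GCDMonoid.gcd A B, B / GCDMonoid.gcd A B, hg,
      isCoprime_div_gcd_div_gcd hB0,
      (EuclideanDomain.mul_div_cancel' hg (GCDMonoid.gcd_dvd_left _ _)).symm,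
      (EuclideanDomain.mul_div_cancel' hg (GCDMonoid.gcd_dvd_right _ _)).symm⟩
  have hdvd : G ^ 3 ∣ D ^ 3 := ⟨A' * B' * (A' + B'), by rw [← h3, hA', hB']; ring⟩
  have hGD : G ∣ D := (UniqueFactorizationMonoid.pow_dvd_pow_iff_dvd (by norm_num)).1 hdvd
  obtain ⟨D', hD'⟩ := hGD
  have hD'0 : D' ≠ 0 := by
    rintro rfl
    exact hD0 (by rw [hD', mul_zero])
  have h4 : A' * B' * (A' + B') = D' ^ 3 := by
    have : G ^ 3 * (A' * B' * (A' + B')) = G ^ 3 * D' ^ 3 := by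
      rw [hA', hB', hD'] at h3
      linear_combination h3
    exact mul_left_cancel₀ (pow_ne_zero 3 hG0) this
  obtain ⟨da, db, dd⟩ := poly_const hco hD'0 h4
  obtain ⟨a, ha⟩ := natDegree_eq_zero.1 da
  obtain ⟨b, hb⟩ := natDegree_eq_zero.1 db
  obtain ⟨d, hd⟩ := natDegree_eq_zero.1 dd
  have hd0 : d ≠ 0 := by
    rintro rfl
    apply hD'0; rw [← hd, C_0]
  refine ⟨(a + b) / d, ?_⟩
  have e3 : (g₁ + g₂) * algebraMap ℂ[X] (RatFunc ℂ) D = algebraMap ℂ[X] (RatFunc ℂ) (A + B) := by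
    rw [map_add, add_mul, e1, e2]
  have e4 : RatFunc.C ((a + b) / d) * algebraMap ℂ[X] (RatFunc ℂ) D =
      algebraMap ℂ[X] (RatFunc ℂ) (A + B) := by
    rw [hA', hB', hD', ← ha, ← hb, ← hd, ← RatFunc.algebraMap_C, ← map_mul]
    congr 1
    have : (C ((a + b) / d) : ℂ[X]) * C d = C a + C b := by
      rw [← C_mul, div_mul_cancel₀ _ hd0, C_add]
    linear_combination G * this
  exact mul_right_cancel₀ hD1 (e3.trans e4.symm)

end Pool.Agent.MP_240e45_ag
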