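import Pool.Agent.Lib.MP_240e45_ag.Fermat
import Pool.Agent.Lib.MP_240e45_ag.Defs

/-! Rational functions in `u, v` on the curve `uv(u+v) = 1` through which `u + v` factors. -/

namespace Pool.Agent.MP_240e45_ag

open Polynomial IntermediateField

theorem isMobius_of_mem (f : RatFunc ℂ) (h : (RatFunc.X : RatFunc ℂ) ∈ ℂ⟮f⟯) : IsMobius f := by
  have htop : ℂ⟮f⟯ = ⊤ := by
    rw [eq_top_iff, ← RatFunc.adjoin_X, adjoin_simple_le_iff]
    exact h
  have hfin : Module.finrank ℂ⟮f⟯ (RatFunc ℂ) = 1 := by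
    rw [htop]
    exact IntermediateField.finrank_top
  rw [RatFunc.finrank_eq_max_natDegree] at hfin
  have hn : f.num.natDegree ≤ 1 := by omega
  have hd : f.denom.natDegree ≤ 1 := by omega
  obtain ⟨a, b, hab⟩ : ∃ a b : ℂ, f.num = C a * X + C b :=
    ⟨_, _, Polynomial.eq_X_add_C_of_natDegree_le_one hn⟩
  obtain ⟨c, d, hcd⟩ : ∃ c d : ℂ, f.denom = C c * X + C d :=
    ⟨_, _, Polynomial.eq_X_add_C_of_natDegree_le_one hd⟩
  refine ⟨a, b, c, d, ?_, ?_⟩
  · intro h0
    obtain ⟨p, q, hpq⟩ := f.isCoprime_num_denom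
    by_cases hc : c = 0
    · subst hc
      have hd0 : d ≠ 0 := by
        rintro rfl
        apply f.denom_ne_zero
        rw [hcd]; simp
      have ha : a = 0 := by
        have : a * d = 0 := by linear_combination h0
        exact (mul_eq_zero.1 this).resolve_right hd0
      subst ha
      rw [hab, hcd] at hfin
      simp at hfin
    · have h1 := congrArg (Polynomial.eval (-d / c)) hpq
      rw [hab, hcd] at h1
      simp only [eval_add, eval_mul, eval_C, eval_X, eval_one] at h1
      have e1 : a * (-d / c) + b = 0 := by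
        field_simp
        linear_combination -h0
      have e2 : c * (-d / c) + d = 0 := by
        field_simp
        ring
      rw [e1, e2] at h1
      simp at h1
  · conv_lhs => rw [← RatFunc.num_div_denom f, hab, hcd]
    simp

section fin

variable {F : Type*} [Field F] [Algebra ℂ F]

theorem mem_form {u v : F} (huv : u * v * (u + v) = 1) {S : F}
    (hS : S ∈ IntermediateField.adjoin ℂ {u, v}) :
    ∃ a ∈ ℂ⟮u + v⟯, ∃ b ∈ ℂ⟮u + v⟯, S = a + b * u := by
  have hw : u + v ∈ ℂ⟮u + v⟯ := mem_adjoin_simple_self ℂ _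
  have hw0 : u + v ≠ 0 := right_ne_zero_of_mul_eq_one huv
  have huv' : u * v = (u + v)⁻¹ := eq_inv_of_mul_eq_one_left huv
  have hiw : (u + v)⁻¹ ∈ ℂ⟮u + v⟯ := inv_mem hw
  induction hS using IntermediateField.adjoin_induction with
  | mem x hx =>
    rcases hx with rfl | hx
    · exact ⟨0, zero_mem _, 1, one_mem _, by ring⟩
    · rw [Set.mem_singleton_iff] at hx
      subst hx
      exact ⟨_, hw, -1, neg_mem (one_mem _), by ring⟩
  | algebraMap x => exact ⟨_, IntermediateField.algebraMap_mem _ x, 0, zero_mem _, by ring⟩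
  | add x y _ _ hx hy =>
    obtain ⟨a, ha, b, hb, rfl⟩ := hx
    obtain ⟨c, hc, d, hd, rfl⟩ := hy
    exact ⟨a + c, add_mem ha hc, b + d, add_mem hb hd, by ring⟩
  | mul x y _ _ hx hy =>
    obtain ⟨a, ha, b, hb, rfl⟩ := hx
    obtain ⟨c, hc, d, hd, rfl⟩ := hy
    refine ⟨a * c - b * d * (u + v)⁻¹, sub_mem (mul_mem ha hc) (mul_mem (mul_mem hb hd) hiw),
      a * d + b * c + b * d * (u + v), add_mem (add_mem (mul_mem ha hd) (mul_mem hb hc))
        (mul_mem (mul_mem hb hd) hw), ?_⟩
    rw [← huv']; ring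
  | inv x _ hx =>
    obtain ⟨a, ha, b, hb, rfl⟩ := hx
    by_cases h0 : a + b * u = 0
    · exact ⟨0, zero_mem _, 0, zero_mem _, by rw [h0]; simp⟩
    by_cases h1 : a + b * v = 0
    · have hb0 : b ≠ 0 := by
        rintro rfl
        apply h0
        have : a = 0 := by simpa using h1
        rw [this]; simp
      have hv : v ∈ ℂ⟮u + v⟯ := by
        have h2 : -a / b = v := by
          field_simp
          linear_combination -h1
        have h3 : -a / b ∈ ℂ⟮u + v⟯ := div_mem (neg_mem ha) hb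
        rwa [h2] at h3
      have hu : u ∈ ℂ⟮u + v⟯ := by
        have := sub_mem hw hv
        rwa [add_sub_cancel_right] at this
      exact ⟨(a + b * u)⁻¹, inv_mem (add_mem ha (mul_mem hb hu)), 0, zero_mem _, by ring⟩
    · have hn : (a + b * u) * (a + b * v) = a ^ 2 + a * b * (u + v) + b ^ 2 * (u + v)⁻¹ := by
        rw [← huv']; ring
      have hN : (a ^ 2 + a * b * (u + v) + b ^ 2 * (u + v)⁻¹)⁻¹ ∈ ℂ⟮u + v⟯ :=
        inv_mem (add_mem (add_mem (pow_mem ha 2) (mul_mem (mul_mem ha hb) hw))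
          (mul_mem (pow_mem hb 2) hiw))
      refine ⟨(a + b * (u + v)) * (a ^ 2 + a * b * (u + v) + b ^ 2 * (u + v)⁻¹)⁻¹,
        mul_mem (add_mem ha (mul_mem hb hw)) hN,
        -b * (a ^ 2 + a * b * (u + v) + b ^ 2 * (u + v)⁻¹)⁻¹, mul_mem (neg_mem hb) hN, ?_⟩
      rw [← hn, mul_inv]
      field_simp
      ring

theorem mobius_of_curve {u v : F} (huv : u * v * (u + v) = 1) (hw : Transcendental ℂ (u + v))
    {S : F} (hS : S ∈ IntermediateField.adjoin ℂ {u, v}) (f : RatFunc ℂ)
    (hf : aeval S f.num = (u + v) * aeval S f.denom) : IsMobius f := by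
  have hden : aeval S f.denom ≠ 0 := by
    intro h0
    rw [h0, mul_zero] at hf
    obtain ⟨p, q, hpq⟩ := f.isCoprime_num_denom
    have := congrArg (aeval S) hpq
    rw [map_add, map_mul, map_mul, hf, h0] at this
    simp at this
  have hwS : u + v = aeval S f.num / aeval S f.denom := by
    rw [eq_div_iff hden, hf]
  have hSt : Transcendental ℂ S := by
    intro halg
    apply hw
    have halg' : ∀ p : ℂ[X], IsAlgebraic ℂ (aeval S p) := by
      intro p
      induction p using Polynomial.induction_on' with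
      | add p q hp hq => rw [map_add]; exact hp.add hq
      | monomial n c =>
        rw [aeval_monomial]
        exact (isAlgebraic_algebraMap c).mul (halg.pow n)
    rw [hwS, div_eq_mul_inv]
    exact (halg' _).mul (halg' _).inv
  set φ := RatFunc.algEquivOfTranscendental S hSt with hφ
  let ψ : RatFunc ℂ →ₐ[ℂ] F := (ℂ⟮S⟯).val.comp φ.toAlgHom
  have hψX : ψ RatFunc.X = S := RatFunc.algEquivOfTranscendental_X S hSt
  have hψf : ψ f = u + v := by
    rw [hwS]
    exact RatFunc.algEquivOfTranscendental_apply S hSt f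
  have hψi : Function.Injective ψ := ψ.toRingHom.injective
  have hsurj : ∀ y ∈ ℂ⟮S⟯, ∃ x, ψ x = y := by
    intro y hy
    obtain ⟨x, hx⟩ := φ.surjective ⟨y, hy⟩
    exact ⟨x, congrArg Subtype.val hx⟩
  obtain ⟨a, ha, b, hb, hab⟩ := mem_form huv hS
  by_cases hb0 : b = 0
  · apply isMobius_of_mem
    have hSa : S ∈ ℂ⟮u + v⟯ := by
      rw [hab, hb0, zero_mul, add_zero]; exact ha
    have hmap : (ℂ⟮f⟯).map ψ = ℂ⟮u + v⟯ := by
      rw [IntermediateField.adjoin_map, Set.image_singleton, hψf]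
    rw [← hmap, ← hψX] at hSa
    obtain ⟨y, hy, hyX⟩ := hSa
    rw [← hψi hyX]
    exact hy
  · exfalso
    have hwmem : u + v ∈ ℂ⟮S⟯ := by
      rw [← hψf]
      exact (φ f).2
    have hle : ℂ⟮u + v⟯ ≤ ℂ⟮S⟯ := by
      rw [adjoin_simple_le_iff]; exact hwmem
    have hSS : S ∈ ℂ⟮S⟯ := mem_adjoin_simple_self ℂ _
    have hu : u ∈ ℂ⟮S⟯ := by
      have h1 : (S - a) / b = u := by
        rw [div_eq_iff hb0, hab]; ring
      rw [← h1]
      exact div_mem (sub_mem hSS (hle ha)) (hle hb)
    have hv : v ∈ ℂ⟮S⟯ := by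
      have := sub_mem hwmem hu
      rwa [add_sub_cancel_left] at this
    obtain ⟨g₁, hg₁⟩ := hsurj u hu
    obtain ⟨g₂, hg₂⟩ := hsurj v hv
    have hg : g₁ * g₂ * (g₁ + g₂) = 1 := by
      apply hψi
      rw [map_mul, map_mul, map_add, hg₁, hg₂, map_one, huv]
    obtain ⟨c, hc⟩ := ratFunc_const g₁ g₂ hg
    apply hw
    have : u + v = algebraMap ℂ F c := by
      rw [← hg₁, ← hg₂, ← map_add, hc, ← RatFunc.algebraMap_eq_C, ψ.commutes]
    rw [this]
    exact isAlgebraic_algebraMap c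

end fin

end Pool.Agent.MP_240e45_ag
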