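import Pool.Agent.Lib.MP_240e45_ag.NCRat

/-! The level sets of the explicit rational function, and its indecomposability. -/

namespace Pool.Agent.MP_240e45_ag

open Matrix

theorem exists_uv {w : ℂ} (hw0 : w ≠ 0) (hw4 : w ^ 3 ≠ 4) :
    ∃ u v : ℂ, u * v * (u + v) = 1 ∧ u ≠ v ∧ u + v = w := by
  obtain ⟨δ, hδ⟩ := IsAlgClosed.exists_pow_nat_eq (w ^ 2 - 4 / w) (n := 2) (by norm_num)
  have hδ0 : δ ≠ 0 := by
    rintro rfl
    apply hw4
    have : w ^ 2 - 4 / w = 0 := by rw [← hδ]; ring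
    field_simp at this
    linear_combination this
  have huvw : (w + δ) / 2 + (w - δ) / 2 = w := by ring
  refine ⟨(w + δ) / 2, (w - δ) / 2, ?_, ?_, huvw⟩
  · have : (w + δ) / 2 * ((w - δ) / 2) = (w ^ 2 - δ ^ 2) / 4 := by ring
    rw [huvw, this, hδ]
    field_simp
    ring
  · intro huv'
    apply hδ0
    have : (w + δ) / 2 - (w - δ) / 2 = δ := by ring
    rw [← this, huv', sub_self]

variable {g : ℕ}

theorem nondeg_r0 {i j : Fin g} (hij : i ≠ j) : (Expr.r0 i j).Nondeg := by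
  refine ⟨3, by norm_num, tup i j xm (ym 2), ?_⟩
  rw [dom_r0, tup_i, tup_j hij]
  exact ⟨cond_three.g, cond_three.f⟩

/-- the explicit noncommutative rational function -/
noncomputable def r0fun {i j : Fin g} (hij : i ≠ j) : NCRat g :=
  NCRat.mk (Expr.r0 i j) (nondeg_r0 hij)

theorem not_decomposes {i j : Fin g} (hij : i ≠ j) : ¬ (r0fun hij).Decomposes := by
  rintro ⟨f, hf, s, e, -, he⟩
  obtain ⟨⟨n, hn, Z, hZ⟩, hag⟩ := (NCRat.isRep_iff _ _).1 he
  have : NeZero n := ⟨hn.ne'⟩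
  exact hf (mobius_of_equiv hij e f n Z hZ (hag.fintype (Fin 3 × Fin n)))

theorem isOpen_ne (n : ℕ) (p : PolyEnt g (Fin n)) :
    @IsOpen _ (zariski g n) {X | ev X p ≠ 0} :=
  TopologicalSpace.isOpen_generateFrom_of_mem ⟨p, by
    ext X
    simp only [Set.mem_ofPred_eq, ev]
    rw [MvPolynomial.aeval_eq_eval]⟩

theorem not_irreducible {i j : Fin g} (hij : i ≠ j) (m : ℕ) {c : ℂ} (hc : c ≠ 0) (hc4 : c ^ 3 ≠ 4) :
    ((r0fun hij).levelSet (3 + m) c).Nonempty ∧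
      ¬ @IsPreirreducible _ (zariski g (3 + m)) ((r0fun hij).levelSet (3 + m) c) := by
  obtain ⟨u, v, huv, hne, rfl⟩ := exists_uv hc hc4
  have huv' : v * u * (v + u) = 1 := by rw [← huv]; ring
  have mem : ∀ X : Fin g → Matrix (Fin (3 + m)) (Fin (3 + m)) ℂ, Expr.Dom X (Expr.r0 i j) →
      (Expr.val X (Expr.r0 i j) - algebraMap ℂ _ (u + v)).det = 0 →
      X ∈ (r0fun hij).levelSet (3 + m) (u + v) := by
    intro X h1 h2
    refine ⟨Expr.r0 i j, ⟨nondeg_r0 hij, rfl⟩, h1, ?_⟩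
    rwa [Algebra.algebraMap_eq_smul_one] at h2
  obtain ⟨X1, d1, e1, n1⟩ := exists_point m hij huv hne hc4
  obtain ⟨X2, d2, e2, n2⟩ := exists_point m hij huv' hne.symm (by rwa [add_comm])
  rw [add_comm v u] at e2
  refine ⟨⟨X1, mem X1 d1 e1⟩, fun hirr => ?_⟩
  obtain ⟨X, ⟨e, hrep, hdom, hdet⟩, hX1, hX2⟩ := hirr _ _ (isOpen_ne (3 + m) (pH u v i j))
    (isOpen_ne (3 + m) (pH v u i j)) ⟨X1, mem X1 d1 e1, n1⟩ ⟨X2, mem X2 d2 e2, n2⟩
  have hag := (NCRat.isRep_iff _ _).1 hrep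
  rcases level_cover huv i j X (fun h0 => by
    rw [← hag.2 _ (by omega) X hdom h0, Algebra.algebraMap_eq_smul_one]
    exact hdet) with h | h
  · exact hX1 h
  · exact hX2 h

theorem not_genericallyIrreducible {i j : Fin g} (hij : i ≠ j) :
    ¬ (r0fun hij).GenericallyIrreducible := by
  rintro ⟨N, -, Λ, h⟩
  have hfin : ((Λ : Set ℂ) ∪ {0} ∪ ((Polynomial.X ^ 3 - Polynomial.C (4 : ℂ)).roots.toFinset :
      Set ℂ)).Finite := ((Λ.finite_toSet).union (Set.finite_singleton _)).union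
        (Finset.finite_toSet _)
  obtain ⟨c, hc⟩ := hfin.infinite_compl.nonempty
  simp only [Set.mem_compl_iff, Set.mem_union, not_or] at hc
  obtain ⟨⟨hcΛ, hc0⟩, hcr⟩ := hc
  have hc0' : c ≠ 0 := fun h => hc0 (by simp [h])
  have hc4 : c ^ 3 ≠ 4 := by
    intro h4
    apply hcr
    rw [Finset.mem_coe, Multiset.mem_toFinset, Polynomial.mem_roots']
    refine ⟨Polynomial.X_pow_sub_C_ne_zero (by norm_num) _, ?_⟩
    simp [h4]
  have h1 := h (3 + N) (by omega) c (by simpa using hcΛ)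
  exact (not_irreducible hij N hc0' hc4).2 h1.2

end Pool.Agent.MP_240e45_ag
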