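import Mathlib

/-! The linear pencil over the cubic curve `u * v * (u + v) = 1`. -/

namespace Pool.Agent.MP_240e45_ag

section kernel

variable {R V : Type*} [CommRing R] [AddCommGroup V] [Module R V]

/-- `W = (W0, W1, W2)` is a kernel vector of the pencil at `(u, v)`. -/
structure IsKer (x y : V →ₗ[R] V) (u v : R) (W0 W1 W2 : V) : Prop where
  e0 : x W0 + y W0 = W1 + W2
  e1 : x W1 = -(v • (u • W0 + W2))
  e2 : y W2 = -(u • (v • W0 + W1))

variable {x y : V →ₗ[R] V} {u v : R} {W0 W1 W2 : V}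

theorem IsKer.swap (h : IsKer x y u v W0 W1 W2) : IsKer y x v u W0 W2 W1 where
  e0 := by rw [add_comm, h.e0, add_comm]
  e1 := h.e2
  e2 := h.e1

theorem IsKer.c_W2 (huv : u * v * (u + v) = 1) (h : IsKer x y u v W0 W1 W2) :
    x (y W2) - y (x W2) = W0 - (y (x (x W0)) + y (x (y W0))) := by
  obtain ⟨e0, e1, e2⟩ := h
  have h1 := congrArg x e2
  have h2 := congrArg (fun z => y (x z)) e0
  have h3 := congrArg y e1
  simp only [map_neg, map_add, map_smul] at h1 h2 h3
  linear_combination (norm := module) h1 + h2 + h3 - (u * v) • e0 - u • e1 - v • e2 + huv • W0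

theorem IsKer.F_W2 (huv : u * v * (u + v) = 1) (h : IsKer x y u v W0 W1 W2) :
    W2 - (x (x (y W2)) + y (x (y W2))) = -((u * v) • (x (y W0) - y (x W0))) := by
  obtain ⟨e0, e1, e2⟩ := h
  have h1 := congrArg (fun z => x (x z)) e2
  have h1' := congrArg (fun z => y (x z)) e2
  have h3 := congrArg x e1
  have h3' := congrArg y e1
  have h4 := congrArg x e0
  simp only [map_neg, map_add, map_smul] at h1 h1' h3 h3' h4
  linear_combination (norm := module) - h1 - h1' + u • h3 + u • h3' + (u * v) • h4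
    - (u * u * v) • e0 + (u * v) • e1 - (u * v) • e2 - huv • W2

/-- if `F = 1 - (x+y)xy` is injective, a kernel vector is determined by `W0`. -/
theorem IsKer.eq_zero (huv : u * v * (u + v) = 1)
    (hF : ∀ z, z - (x (x (y z)) + y (x (y z))) = 0 → z = 0)
    (h : IsKer x y u v W0 W1 W2) (h0 : W0 = 0) : W1 = 0 ∧ W2 = 0 := by
  have h2 : W2 = 0 := by
    apply hF
    rw [h.F_W2 huv, h0]
    simp
  have h1 := h.e0
  rw [h0, h2] at h1
  simp only [map_zero, add_zero] at h1
  exact ⟨h1.symm, h2⟩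

/-- the algebra behind the determinant identity -/
theorem ker_aux (hw : u * v * (u + v) = 1) {Z W1 W2 : V}
    (ha : x (y W2) - y (x W2) = Z - (y (x (x Z)) + y (x (y Z))))
    (hb : W2 - (x (x (y W2)) + y (x (y W2))) = -((u * v) • (x (y Z) - y (x Z))))
    (h1 : x Z + y Z = W1 + W2) (ξ1 ξ2 : V)
    (hξ1 : ξ1 = (u * v) • Z + x W1 + v • W2) (hξ2 : ξ2 = (u * v) • Z + u • W1 + y W2) :
    IsKer x y v u (-((u + v) • (x ξ2 - u • ξ1))) ξ2 (-ξ1) := by
  have hx1 := congrArg x h1
  have hyx1 := congrArg (fun z => y (x z)) h1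
  simp only [map_add] at hx1 hyx1
  have A : u • ξ1 - y ξ1 + v • ξ2 - x ξ2 = 0 := by
    rw [hξ1, hξ2]
    simp only [map_add, map_smul]
    linear_combination (norm := module) (-1 : R) • ha + hyx1 - (u * v) • h1 + hw • Z
  have B : (u * v) • ξ1 + u • (x ξ1 + y ξ1) - (x (x ξ2) + y (x ξ2)) - (u * v) • ξ2 = 0 := by
    rw [hξ1, hξ2]
    simp only [map_add, map_smul]
    linear_combination (norm := module) hb - (u * v) • hx1 + (u * u * v) • h1 + hw • W2
  constructor
  · simp only [map_neg, map_sub, map_smul]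
    linear_combination (norm := module) (u + v) • B - hw • ξ1 + hw • ξ2
  · linear_combination (norm := module) - hw • (x ξ2) + (u : R) • hw • ξ1
  · simp only [map_neg]
    linear_combination (norm := module) A + hw • (u • ξ1 - x ξ2)

end kernel

end Pool.Agent.MP_240e45_ag
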