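import Pool.Agent.Lib.MP_240e45_ag.Part2

/-! Noncommutative rational functions as classes of formal rational expressions. -/

namespace Pool.Agent.MP_240e45_ag

open Matrix

namespace Expr

variable {g : ℕ}

section transport

variable {ι κ : Type*} [Fintype ι] [DecidableEq ι] [Fintype κ] [DecidableEq κ]

theorem agree_of_equiv (e : ι ≃ κ) (a b : Expr g)
    (h : ∀ X : Fin g → Matrix κ κ ℂ, Dom X a → Dom X b → val X a = val X b)
    (X : Fin g → Matrix ι ι ℂ) (ha : Dom X a) (hb : Dom X b) : val X a = val X b := by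
  set φ := Matrix.reindexAlgEquiv ℂ ℂ e with hφ
  obtain ⟨ha1, ha2⟩ := dom_val_map φ.toAlgHom X a ha
  obtain ⟨hb1, hb2⟩ := dom_val_map φ.toAlgHom X b hb
  apply φ.injective
  have := h _ ha1 hb1
  rw [ha2, hb2] at this
  exact this

end transport

theorem Agree.fintype {a b : Expr g} (h : Agree a b) (ι : Type*) [Fintype ι] [DecidableEq ι]
    [Nonempty ι] (X : Fin g → Matrix ι ι ℂ) (ha : Dom X a) (hb : Dom X b) :
    val X a = val X b :=
  agree_of_equiv (Fintype.equivFin ι) a b (h _ Fintype.card_pos) X ha hb

theorem Agree.refl (a : Expr g) : Agree a a := fun _ _ _ _ _ => rfl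

theorem Agree.symm {a b : Expr g} (h : Agree a b) : Agree b a :=
  fun n hn X hb ha => (h n hn X ha hb).symm

theorem Agree.trans {a b c : Expr g} (hb : b.Nondeg) (hab : Agree a b) (hbc : Agree b c) :
    Agree a c := by
  intro n hn X hXa hXc
  obtain ⟨m, hm, Z, hZ⟩ := hb
  have : Nonempty (Fin n) := ⟨⟨0, hn⟩⟩
  have : Nonempty (Fin m) := ⟨⟨0, hm⟩⟩
  -- everything is defined generically over `Fin n × Fin m`
  have hXa' := dom_val_map (constHom (Fin n) (Fin m)) X a hXa
  have hXc' := dom_val_map (constHom (Fin n) (Fin m)) X c hXc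
  have hZ1 := (dom_val_map (constHom (Fin m) (Fin n)) Z b hZ).1
  have hZ2 := (dom_val_map
    (Matrix.reindexAlgEquiv ℂ ℂ (Equiv.prodComm (Fin m) (Fin n))).toAlgHom _ b hZ1).1
  have da := den_ne_zero_of_dom _ a hXa'.1
  have dc := den_ne_zero_of_dom _ c hXc'.1
  have db := den_ne_zero_of_dom _ b hZ2
  have hac : ∀ Y : Fin g → Matrix (Fin n × Fin m) (Fin n × Fin m) ℂ, Dom Y a → Dom Y c →
      val Y a = val Y c := by
    have h1 := num_den_of_agree a b da db (hab.fintype _)
    have h2 := num_den_of_agree b c db dc (hbc.fintype _)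
    intro Y hYa hYc
    have e1 := den_smul_val Y a hYa
    have e2 := den_smul_val Y c hYc
    have u1 := (dom_iff Y a).1 hYa
    have u2 := (dom_iff Y c).1 hYc
    ext i j
    have h1' := congrFun (congrFun h1 i) j
    have h2' := congrFun (congrFun h2 i) j
    simp only [Matrix.smul_apply, smul_eq_mul] at h1' h2'
    have h3 : den (Fin n × Fin m) c * num (Fin n × Fin m) a i j =
        den (Fin n × Fin m) a * num (Fin n × Fin m) c i j := by
      apply mul_left_cancel₀ db
      linear_combination den (Fin n × Fin m) c * h1' + den (Fin n × Fin m) a * h2'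
    have h3' := congrArg (ev Y) h3
    have e1' := congrFun (congrFun e1 i) j
    have e2' := congrFun (congrFun e2 i) j
    simp only [Matrix.smul_apply, Matrix.map_apply, smul_eq_mul, map_mul] at e1' e2' h3'
    rw [← e1', ← e2'] at h3'
    have : (ev Y (den (Fin n × Fin m) c) * ev Y (den (Fin n × Fin m) a)) * val Y a i j =
        (ev Y (den (Fin n × Fin m) c) * ev Y (den (Fin n × Fin m) a)) * val Y c i j := by
      linear_combination h3'
    exact (u2.mul u1).mul_left_cancel this
  have h4 := hac _ hXa'.1 hXc'.1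
  rw [hXa'.2, hXc'.2] at h4
  have h5 : Matrix.blockDiagonal (fun _ : Fin m => val X a) =
      Matrix.blockDiagonal (fun _ : Fin m => val X c) := h4
  exact congrFun (Matrix.blockDiagonal_injective h5) ⟨0, hm⟩

end Expr

/-- Nondegenerate expressions, up to having the same values wherever both are defined. -/
instance ratSetoid (g : ℕ) : Setoid {e : Expr g // e.Nondeg} where
  r a b := Expr.Agree a.1 b.1
  iseqv :=
    { refl := fun a => Expr.Agree.refl a.1
      symm := fun h => h.symm
      trans := fun {_ b _} h h' => Expr.Agree.trans b.2 h h' }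

/-- Noncommutative rational functions in `g` variables (elements of the free skew field):
classes of nondegenerate formal rational expressions. -/
def NCRat (g : ℕ) : Type := Quotient (ratSetoid g)

namespace NCRat

variable {g : ℕ}

/-- the noncommutative rational function represented by a nondegenerate expression -/
def mk (e : Expr g) (h : e.Nondeg) : NCRat g := Quotient.mk (ratSetoid g) ⟨e, h⟩

/-- `e` is a formal rational expression representing `r` -/
def IsRep (r : NCRat g) (e : Expr g) : Prop := ∃ h : e.Nondeg, mk e h = r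

/-- The domain of `r` on `n × n` matrices: the tuples at which some representing expression
is defined. -/
def dom (r : NCRat g) (n : ℕ) : Set (Fin g → Matrix (Fin n) (Fin n) ℂ) :=
  {X | ∃ e, r.IsRep e ∧ Expr.Dom X e}

/-- The level set `L_{n,c}(r)`: the tuples `X` in the domain of `r` with
`det (r(X) - c I) = 0`, where `r(X)` is the value at `X` of any representing expression
defined at `X`. -/
def levelSet (r : NCRat g) (n : ℕ) (c : ℂ) : Set (Fin g → Matrix (Fin n) (Fin n) ℂ) :=
  {X | ∃ e, r.IsRep e ∧ Expr.Dom X e ∧ (Expr.val X e - c • (1 : Matrix (Fin n) (Fin n) ℂ)).det = 0}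

/-- irreducibility in the Zariski topology -/
def ZIrreducible {n : ℕ} (s : Set (Fin g → Matrix (Fin n) (Fin n) ℂ)) : Prop :=
  @IsIrreducible _ (zariski g n) s

/-- `r` has generically irreducible level sets -/
def GenericallyIrreducible (r : NCRat g) : Prop :=
  ∃ N : ℕ, 0 < N ∧ ∃ Λ : Finset ℂ, ∀ n : ℕ, N ≤ n → ∀ c : ℂ, c ∉ Λ → ZIrreducible (r.levelSet n c)

/-- `r = f(s)`: for some expression `e` representing `s` the expression `f(e)` is nondegenerate
and represents `r`. -/
def IsComp (r : NCRat g) (f : RatFunc ℂ) (s : NCRat g) : Prop :=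
  ∃ e, s.IsRep e ∧ r.IsRep (Expr.comp f e)

/-- `r` decomposes: `r = f(s)` for some univariate rational function `f` that is not Möbius
and some noncommutative rational function `s` -/
def Decomposes (r : NCRat g) : Prop :=
  ∃ f : RatFunc ℂ, ¬ IsMobius f ∧ ∃ s : NCRat g, r.IsComp f s

theorem isRep_iff {e₀ : Expr g} (h₀ : e₀.Nondeg) (e : Expr g) :
    (mk e₀ h₀).IsRep e ↔ e.Nondeg ∧ Expr.Agree e e₀ := by
  constructor
  · rintro ⟨h, h'⟩
    exact ⟨h, Quotient.exact h'⟩
  · rintro ⟨h, h'⟩
    exact ⟨h, Quotient.sound h'⟩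

/-- the value of `r` at a point of its domain does not depend on the representing expression -/
theorem val_eq (r : NCRat g) {e e' : Expr g} (h : r.IsRep e) (h' : r.IsRep e') {n : ℕ} (hn : 0 < n)
    (X : Fin g → Matrix (Fin n) (Fin n) ℂ) (hX : Expr.Dom X e) (hX' : Expr.Dom X e') :
    Expr.val X e = Expr.val X e' := by
  obtain ⟨h1, rfl⟩ := h
  exact (((isRep_iff h1 e').1 h').2.symm) n hn X hX hX'

end NCRat

end Pool.Agent.MP_240e45_ag
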