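import Pool.Agent.Lib.MP_240e45_ag.Expr

/-! Numerators and denominators of rational expressions on matrices. -/

namespace Pool.Agent.MP_240e45_ag

open Matrix

section defs

variable {g : ℕ} {ι : Type*} [Fintype ι] [DecidableEq ι]

/-- The polynomial ring in the entries of a `g`-tuple of matrices. -/
abbrev PolyEnt (g : ℕ) (ι : Type*) : Type _ := MvPolynomial (Fin g × ι × ι) ℂ

/-- Evaluation of polynomials at the entries of a tuple of matrices. -/
noncomputable def ev {R : Type*} [CommRing R] [Algebra ℂ R] (X : Fin g → Matrix ι ι R) :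
    PolyEnt g ι →ₐ[ℂ] R :=
  MvPolynomial.aeval (fun t => X t.1 t.2.1 t.2.2)

variable (ι) in
/-- denominators and numerators, simultaneously -/
noncomputable def dn : Expr g → PolyEnt g ι × Matrix ι ι (PolyEnt g ι)
  | .const c => (1, algebraMap ℂ _ c)
  | .var i => (1, Matrix.of fun j k => MvPolynomial.X (i, j, k))
  | .add a b => ((dn a).1 * (dn b).1, (dn b).1 • (dn a).2 + (dn a).1 • (dn b).2)
  | .mul a b => ((dn a).1 * (dn b).1, (dn a).2 * (dn b).2)
  | .inv a => ((dn a).1 * (dn a).2.det, ((dn a).1 ^ 2) • (dn a).2.adjugate)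

variable (ι) in
noncomputable def den (e : Expr g) : PolyEnt g ι := (dn ι e).1
variable (ι) in
noncomputable def num (e : Expr g) : Matrix ι ι (PolyEnt g ι) := (dn ι e).2

variable {R : Type*} [CommRing R] [Algebra ℂ R]

theorem dn_spec (X : Fin g → Matrix ι ι R) (e : Expr g) :
    (Expr.Dom X e ↔ IsUnit (ev X (den ι e))) ∧
    (Expr.Dom X e → ev X (den ι e) • Expr.val X e = (num ι e).map (ev X)) := by
  induction e with
  | const c =>
    refine ⟨?_, fun _ => ?_⟩
    · simp [den, dn, Expr.Dom]
    · simp only [den, num, dn, Expr.val, map_one, one_smul]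
      ext i j
      simp only [Matrix.map_apply, Matrix.algebraMap_matrix_apply]
      split_ifs
      · exact ((ev X).commutes c).symm
      · simp
  | var i =>
    refine ⟨?_, fun _ => ?_⟩
    · simp [den, dn, Expr.Dom]
    · simp only [den, num, dn, Expr.val, map_one, one_smul]
      ext j k
      simp [ev]
  | add a b iha ihb =>
    have hd : den ι (a.add b) = den ι a * den ι b := rfl
    have hn : num ι (a.add b) = den ι b • num ι a + den ι a • num ι b := rfl
    refine ⟨?_, fun h => ?_⟩
    · rw [hd, map_mul, IsUnit.mul_iff]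
      exact and_congr iha.1 ihb.1
    · obtain ⟨ha, hb⟩ := h
      have h1 := iha.2 ha
      have h2 := ihb.2 hb
      rw [hd, hn, map_mul]
      ext i j
      have h1' := congrFun (congrFun h1 i) j
      have h2' := congrFun (congrFun h2 i) j
      simp only [Matrix.smul_apply, Matrix.map_apply, Matrix.add_apply, smul_eq_mul, map_add,
        map_mul, Expr.val] at h1' h2' ⊢
      rw [← h1', ← h2']
      ring
  | mul a b iha ihb =>
    have hd : den ι (a.mul b) = den ι a * den ι b := rfl
    have hn : num ι (a.mul b) = num ι a * num ι b := rfl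
    refine ⟨?_, fun h => ?_⟩
    · rw [hd, map_mul, IsUnit.mul_iff]
      exact and_congr iha.1 ihb.1
    · obtain ⟨ha, hb⟩ := h
      have h1 := iha.2 ha
      have h2 := ihb.2 hb
      rw [hd, hn, map_mul, Matrix.map_mul, ← h1, ← h2]
      simp only [Expr.val]
      rw [Matrix.smul_mul, Matrix.mul_smul, smul_smul]
  | inv a iha =>
    have hd : den ι a.inv = den ι a * (num ι a).det := rfl
    have hn : num ι a.inv = ((den ι a) ^ 2) • (num ι a).adjugate := rfl
    have key : Expr.Dom X a → (IsUnit (Expr.val X a) ↔ IsUnit (ev X (num ι a).det)) := by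
      intro ha
      have h1 := iha.2 ha
      have hu : IsUnit (ev X (den ι a)) := iha.1.1 ha
      rw [Matrix.isUnit_iff_isUnit_det]
      have : ev X (num ι a).det = ((num ι a).map (ev X)).det := by
        rw [← AlgHom.coe_toRingHom, RingHom.map_det]
        rfl
      rw [this, ← h1, Matrix.det_smul, IsUnit.mul_iff]
      constructor
      · intro h
        exact ⟨hu.pow _, h⟩
      · exact fun h => h.2
    refine ⟨?_, fun h => ?_⟩
    · rw [hd, map_mul, IsUnit.mul_iff]
      constructor
      · rintro ⟨ha, hu⟩
        exact ⟨iha.1.1 ha, (key ha).1 hu⟩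
      · rintro ⟨h1, h2⟩
        have ha := iha.1.2 h1
        exact ⟨ha, (key ha).2 h2⟩
    · obtain ⟨ha, hu⟩ := h
      have h1 := iha.2 ha
      rw [hd, hn]
      set d := ev X (den ι a) with hdd
      set M := Expr.val X a with hM
      set V := (num ι a).map (ev X) with hV
      have hdet : ev X (num ι a).det = V.det := by
        rw [← AlgHom.coe_toRingHom, RingHom.map_det]
        rfl
      have hadj : ((den ι a ^ 2) • (num ι a).adjugate).map (ev X) = d ^ 2 • V.adjugate := by
        ext i j
        have := RingHom.map_adjugate (ev X : PolyEnt g ι →+* R) (num ι a)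
        have h3 := congrFun (congrFun this i) j
        simp only [Matrix.smul_apply, Matrix.map_apply, smul_eq_mul, map_mul, map_pow]
        rw [hV]
        simp only [RingHom.mapMatrix_apply, Matrix.map_apply] at h3
        have h4 : (num ι a).map (ev X) = (num ι a).map (ev X : PolyEnt g ι →+* R) := rfl
        rw [h4, ← h3]
        rfl
      rw [hadj, map_mul, hdet]
      show (d * V.det) • Ring.inverse M = _
      have e1 : ((d * V.det) • Ring.inverse M) * M = (d ^ 2 • V.adjugate) * M := by
        rw [Matrix.smul_mul, Ring.inverse_mul_cancel _ hu, Matrix.smul_mul]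
        have : V.adjugate * V = V.det • (1 : Matrix ι ι R) := Matrix.adjugate_mul V
        have h5 : d • (V.adjugate * M) = V.det • (1 : Matrix ι ι R) := by
          rw [← this, ← h1, Matrix.mul_smul]
        rw [pow_two, mul_smul, mul_smul, h5]
      exact hu.mul_right_cancel e1

theorem dom_iff (X : Fin g → Matrix ι ι R) (e : Expr g) :
    Expr.Dom X e ↔ IsUnit (ev X (den ι e)) := (dn_spec X e).1

theorem den_smul_val (X : Fin g → Matrix ι ι R) (e : Expr g) (h : Expr.Dom X e) :
    ev X (den ι e) • Expr.val X e = (num ι e).map (ev X) := (dn_spec X e).2 h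

/-- a nonzero polynomial has a nonvanishing complex point -/
theorem exists_ev_ne_zero (p : PolyEnt g ι) (hp : p ≠ 0) :
    ∃ X : Fin g → Matrix ι ι ℂ, ev X p ≠ 0 := by
  by_contra hcon
  push Not at hcon
  apply hp
  apply MvPolynomial.funext
  intro x
  have := hcon (fun i => Matrix.of fun j k => x (i, j, k))
  rw [map_zero]
  rw [← this]
  rfl

theorem den_ne_zero_of_dom (X : Fin g → Matrix ι ι ℂ) (e : Expr g) (h : Expr.Dom X e) :
    den ι e ≠ 0 := by
  intro h0
  have := (dom_iff X e).1 h
  rw [h0, map_zero] at this
  exact not_isUnit_zero this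

/-- Two expressions that agree on their common domain over the complex numbers (both domains
being nonempty) have proportional numerators and denominators. -/
theorem num_den_of_agree (a b : Expr g) (ha : den ι a ≠ 0) (hb : den ι b ≠ 0)
    (hab : ∀ X : Fin g → Matrix ι ι ℂ, Expr.Dom X a → Expr.Dom X b →
      Expr.val X a = Expr.val X b) :
    den ι b • num ι a = den ι a • num ι b := by
  ext1 i j
  have : den ι a * den ι b * ((den ι b • num ι a) i j - (den ι a • num ι b) i j) = 0 := by
    by_contra hne
    obtain ⟨X, hX⟩ := exists_ev_ne_zero _ hne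
    rw [map_mul, map_mul] at hX
    have h1 : ev X (den ι a) ≠ 0 := by
      intro h; apply hX; rw [h]; ring
    have h2 : ev X (den ι b) ≠ 0 := by
      intro h; apply hX; rw [h]; ring
    have hda : Expr.Dom X a := (dom_iff X a).2 (isUnit_iff_ne_zero.2 h1)
    have hdb : Expr.Dom X b := (dom_iff X b).2 (isUnit_iff_ne_zero.2 h2)
    have e1 := den_smul_val X a hda
    have e2 := den_smul_val X b hdb
    have e3 := hab X hda hdb
    apply hX
    have e1' := congrFun (congrFun e1 i) j
    have e2' := congrFun (congrFun e2 i) j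
    simp only [Matrix.smul_apply, Matrix.map_apply, smul_eq_mul] at e1' e2'
    simp only [Matrix.smul_apply, smul_eq_mul, map_sub, map_mul]
    rw [← e1', ← e2', e3]
    ring
  rcases mul_eq_zero.1 this with h | h
  · rcases mul_eq_zero.1 h with h | h
    · exact absurd h ha
    · exact absurd h hb
  · exact sub_eq_zero.1 h

theorem val_eq_of_agree (a b : Expr g) (ha : den ι a ≠ 0) (hb : den ι b ≠ 0)
    (hab : ∀ X : Fin g → Matrix ι ι ℂ, Expr.Dom X a → Expr.Dom X b →
      Expr.val X a = Expr.val X b)
    (X : Fin g → Matrix ι ι R) (hXa : Expr.Dom X a) (hXb : Expr.Dom X b) :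
    Expr.val X a = Expr.val X b := by
  have h := num_den_of_agree a b ha hb hab
  have e1 := den_smul_val X a hXa
  have e2 := den_smul_val X b hXb
  have u1 := (dom_iff X a).1 hXa
  have u2 := (dom_iff X b).1 hXb
  ext i j
  have e1' := congrFun (congrFun e1 i) j
  have e2' := congrFun (congrFun e2 i) j
  have h' := congrArg (ev X) (congrFun (congrFun h i) j)
  simp only [Matrix.smul_apply, Matrix.map_apply, smul_eq_mul, map_mul] at e1' e2' h'
  rw [← e1', ← e2'] at h'
  have : (ev X (den ι b) * ev X (den ι a)) * Expr.val X a i j =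
      (ev X (den ι b) * ev X (den ι a)) * Expr.val X b i j := by
    linear_combination h'
  exact (u2.mul u1).mul_left_cancel this

end defs

end Pool.Agent.MP_240e45_ag
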