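import Pool.Agent.Lib.MP_240e45_ag.Series
import Pool.Agent.Lib.MP_240e45_ag.Comp
import Pool.Agent.Lib.MP_240e45_ag.FieldPart

/-! If the explicit expression is `f(s)`, then `f` is a Möbius function. -/

namespace Pool.Agent.MP_240e45_ag

open Matrix

section loc

variable {ι : Type*} [Fintype ι] [DecidableEq ι]

/-- constant coefficient as a map of algebras -/
noncomputable def c0 : PS →ₐ[ℂ] ℂ :=
  { (PowerSeries.constantCoeff : PS →+* ℂ) with
    commutes' := fun c => by
      show PowerSeries.constantCoeff (PowerSeries.C c) = c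
      simp }

theorem c0_apply (z : PS) : c0 z = PowerSeries.constantCoeff z := rfl

theorem isUnit_of_c0_mapMatrix {M : Matrix ι ι PS} (h : IsUnit (c0.mapMatrix M)) : IsUnit M := by
  rw [Matrix.isUnit_iff_isUnit_det] at h ⊢
  rw [PowerSeries.isUnit_iff_constantCoeff]
  have : (c0.mapMatrix M).det = PowerSeries.constantCoeff M.det := by
    rw [← c0_apply]
    exact (AlgHom.map_det c0 M).symm
  rwa [this] at h

instance isLocalHom_c0 : IsLocalHom (c0.mapMatrix : Matrix ι ι PS →ₐ[ℂ] Matrix ι ι ℂ) :=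
  ⟨fun _ h => isUnit_of_c0_mapMatrix h⟩

theorem c0_defo (x : Matrix ι ι ℂ) (a : ι → PS) (p : ι → ℂ)
    (ha : ∀ c, PowerSeries.constantCoeff (a c) = 0) : c0.mapMatrix (defo x a p) = x := by
  ext b c
  simp [AlgHom.mapMatrix_apply, Matrix.map_apply, defo, c0_apply, Matrix.vecMulVec_apply, ha, cst]

theorem c0_C (x : Matrix ι ι ℂ) : c0.mapMatrix (x.map (PowerSeries.C : ℂ →+* PS)) = x := by
  ext b c
  simp [AlgHom.mapMatrix_apply, Matrix.map_apply, c0_apply]

theorem transcendental_X_add (c : ℂ) :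
    Transcendental ℂ ((PowerSeries.C c : PS) + PowerSeries.X) := by
  intro h
  have h1 : IsAlgebraic ℂ (PowerSeries.X : PS) := by
    have h2 : IsAlgebraic ℂ (PowerSeries.C c : PS) := isAlgebraic_algebraMap c
    have := h.sub h2
    rwa [add_sub_cancel_left] at this
  obtain ⟨p, hp, hp0⟩ := h1
  apply hp
  apply Polynomial.coe_injective ℂ
  rw [Polynomial.coe_zero, ← hp0]
  exact Polynomial.eval₂_C_X_eq_coe.symm

end loc

theorem aeval_mulVec {ι R : Type*} [Fintype ι] [DecidableEq ι] [CommRing R] [Algebra ℂ R]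
    {B : Matrix ι ι R} {W : ι → R} {S : R} (h : B *ᵥ W = S • W) (p : Polynomial ℂ) :
    (Polynomial.aeval B p) *ᵥ W = (Polynomial.aeval S p) • W := by
  have hpow : ∀ k : ℕ, B ^ k *ᵥ W = S ^ k • W := by
    intro k
    induction k with
    | zero => simp
    | succ k ih =>
      rw [pow_succ, ← Matrix.mulVec_mulVec, h, Matrix.mulVec_smul, ih, smul_smul, pow_succ,
        mul_comm]
  induction p using Polynomial.induction_on' with
  | add p q hp hq => rw [map_add, map_add, Matrix.add_mulVec, hp, hq, add_smul]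
  | monomial n c =>
    rw [Polynomial.aeval_monomial, Polynomial.aeval_monomial, ← Algebra.smul_def,
      ← Algebra.smul_def, Matrix.smul_mulVec, hpow, smul_assoc]

section main

variable {g : ℕ}

theorem mobius_of_equiv {i j : Fin g} (hij : i ≠ j) (s : Expr g) (f : RatFunc ℂ) (N : ℕ)
    [NeZero N] (Z : Fin g → Matrix (Fin N) (Fin N) ℂ) (hZ : Expr.Dom Z (Expr.comp f s))
    (hag : ∀ X : Fin g → Matrix (Fin 3 × Fin N) (Fin 3 × Fin N) ℂ,
      Expr.Dom X (Expr.comp f s) → Expr.Dom X (Expr.r0 i j) →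
      Expr.val X (Expr.comp f s) = Expr.val X (Expr.r0 i j)) : IsMobius f := by
  obtain ⟨X, hXe, hC, hK⟩ := exists_common N (Expr.comp f s) Z hZ hij
  obtain ⟨u, v, W0, W1, W2, p, q, hE⟩ := exists_eigenData hC
  obtain ⟨U, V, hUV, hU, hV, hsum⟩ := exists_series hE.huv hE.hne
  obtain ⟨a, b, hker, ha0, hb0, haA, hbA⟩ := exists_deformation hE U V hU hV
  let Y : Fin g → Matrix (Fin 3 × Fin N) (Fin 3 × Fin N) PS := fun k =>
    if k = i then defo (X i) a p else if k = j then defo (X j) b q
    else (X k).map (PowerSeries.C : ℂ →+* PS)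
  have hYi : Y i = defo (X i) a p := if_pos rfl
  have hYj : Y j = defo (X j) b q := by
    show (if j = i then _ else _) = _
    rw [if_neg hij.symm, if_pos rfl]
  have hY0 : (fun k => c0.mapMatrix (Y k)) = X := by
    ext1 k
    show c0.mapMatrix (if k = i then _ else _) = _
    split_ifs with h1 h2
    · rw [c0_defo _ _ _ ha0, h1]
    · rw [c0_defo _ _ _ hb0, h2]
    · exact c0_C _
  have hXr : Expr.Dom X (Expr.r0 i j) := (dom_r0 X i j).2 ⟨hC.g, hC.f⟩
  have hYe : Expr.Dom Y (Expr.comp f s) := Expr.dom_of_map c0.mapMatrix Y _ (by rw [hY0]; exact hXe)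
  have hYr : Expr.Dom Y (Expr.r0 i j) := Expr.dom_of_map c0.mapMatrix Y _ (by rw [hY0]; exact hXr)
  have hval := val_eq_of_agree (Expr.comp f s) (Expr.r0 i j) (den_ne_zero_of_dom X _ hXe)
    (den_ne_zero_of_dom X _ hXr) hag Y hYe hYr
  obtain ⟨hYs, hQ⟩ := (Expr.dom_comp Y s f).1 hYe
  obtain ⟨hgU, hfU⟩ := (dom_r0 Y i j).1 hYr
  set B := Expr.val Y s with hB
  rw [Expr.val_comp, val_r0] at hval
  set M := rr (Y i) (Y j) with hM
  set Q := Polynomial.aeval B f.denom with hQdef
  set P := Polynomial.aeval B f.num with hPdef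
  have hMQ : M * Q = P := by
    rw [← hval, mul_assoc, Ring.inverse_mul_cancel _ hQ, mul_one]
  have hBQ : Commute B Q := by
    have := (Commute.refl (Polynomial.X : Polynomial ℂ))
    have h2 : Commute (Polynomial.X : Polynomial ℂ) f.denom := Commute.all _ _
    have h3 := h2.map (Polynomial.aeval B)
    rwa [Polynomial.aeval_X] at h3
  have hBP : Commute B P := by
    have h2 : Commute (Polynomial.X : Polynomial ℂ) f.num := Commute.all _ _
    have h3 := h2.map (Polynomial.aeval B)
    rwa [Polynomial.aeval_X] at h3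
  have hBM : Commute B M := by
    show B * M = M * B
    apply hQ.mul_right_cancel
    rw [mul_assoc, hMQ, hBP.eq, mul_assoc, hBQ.eq, ← mul_assoc, hMQ]
  have hMW : M *ᵥ cst W0 = (U + V) • cst W0 := by
    rw [← hYi, ← hYj] at hker
    exact IsKerM.rr_mulVec hUV hfU hgU hker
  have hMX : c0.mapMatrix M = rr (X i) (X j) := by
    rw [← val_r0 X i j, hM, ← val_r0 Y i j, ← (Expr.dom_val_map c0.mapMatrix Y _ hYr).2, hY0]
  have hkry : IsUnit (kry (expo N) ((PowerSeries.C : ℂ →+* PS) ∘ startv N) M) := by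
    apply isUnit_of_c0_mapMatrix
    have h1 : c0.mapMatrix (kry (expo N) ((PowerSeries.C : ℂ →+* PS) ∘ startv N) M) =
        kry (expo N) (startv N) (rr (X i) (X j)) := by
      have h2 := kry_map (c0 : PS →+* ℂ) (expo N) ((PowerSeries.C : ℂ →+* PS) ∘ startv N) M
      have h3 : (c0 : PS →+* ℂ) ∘ ((PowerSeries.C : ℂ →+* PS) ∘ startv N) = startv N := by
        ext c
        show PowerSeries.constantCoeff (PowerSeries.C (startv N c)) = _
        simp
      rw [h3] at h2
      have h4 : M.map (c0 : PS →+* ℂ) = rr (X i) (X j) := hMX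
      rw [h4] at h2
      exact h2
    rw [h1]
    exact hK
  obtain ⟨S, hS⟩ := commutant (expo N) _ M B hkry hBM hMW
  obtain ⟨c, hc⟩ := Function.ne_iff.1 hE.hW0
  rw [Pi.zero_apply] at hc
  have hcU : IsUnit (PowerSeries.C (W0 c) : PS) := by
    rw [PowerSeries.isUnit_iff_constantCoeff, PowerSeries.constantCoeff_C]
    exact isUnit_iff_ne_zero.2 hc
  have hcancel : ∀ z z' : PS, z • cst W0 = z' • cst W0 → z = z' := by
    intro z z' h
    have := congrFun h c
    simp only [Pi.smul_apply, smul_eq_mul, cst] at this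
    exact hcU.mul_right_cancel this
  have hpq : Polynomial.aeval S f.num = (U + V) * Polynomial.aeval S f.denom := by
    apply hcancel
    have h1 := congrArg (fun T => T *ᵥ cst W0) hMQ
    simp only [← Matrix.mulVec_mulVec] at h1
    rw [hQdef, hPdef, aeval_mulVec hS, aeval_mulVec hS, Matrix.mulVec_smul, hMW, smul_smul] at h1
    rw [← h1, mul_comm]
  -- the entries of everything are algebraic expressions in `U, V`
  have hYmem : ∀ k α β, Y k α β ∈ Algebra.adjoin ℂ {U, V} := by
    intro k α β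
    have hCm : ∀ c : ℂ, (PowerSeries.C c : PS) ∈ Algebra.adjoin ℂ {U, V} := fun c =>
      Subalgebra.algebraMap_mem (Algebra.adjoin ℂ {U, V}) c
    have hdef : ∀ (x : Matrix (Fin 3 × Fin N) (Fin 3 × Fin N) ℂ) (a : Fin 3 × Fin N → PS) (p),
        (∀ c, a c ∈ Algebra.adjoin ℂ {U, V}) → defo x a p α β ∈ Algebra.adjoin ℂ {U, V} := by
      intro x a p ha
      rw [defo, Matrix.add_apply, Matrix.map_apply, Matrix.vecMulVec_apply]
      exact Subalgebra.add_mem _ (hCm _) (Subalgebra.mul_mem _ (ha _) (hCm _))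
    show (if k = i then _ else _ : Matrix (Fin 3 × Fin N) (Fin 3 × Fin N) PS) α β ∈ _
    split_ifs with h1 h2
    · exact hdef _ _ _ haA
    · exact hdef _ _ _ hbA
    · exact hCm _
  have hevmem : ∀ z : PolyEnt g (Fin 3 × Fin N), ev Y z ∈ Algebra.adjoin ℂ {U, V} := by
    intro z
    induction z using MvPolynomial.induction_on with
    | C c => rw [MvPolynomial.algHom_C]; exact Subalgebra.algebraMap_mem _ c
    | add z z' h h' => rw [map_add]; exact Subalgebra.add_mem _ h h'
    | mul_X z t h =>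
      rw [map_mul]
      refine Subalgebra.mul_mem _ h ?_
      show MvPolynomial.aeval _ (MvPolynomial.X t) ∈ _
      rw [MvPolynomial.aeval_X]
      exact hYmem _ _ _
  let F := FractionRing PS
  let j' : PS →ₐ[ℂ] F := Algebra.ofId PS F |>.restrictScalars ℂ
  have hj' : Function.Injective j' := IsFractionRing.injective PS F
  have hlift : ∀ z ∈ Algebra.adjoin ℂ {U, V}, j' z ∈ IntermediateField.adjoin ℂ {j' U, j' V} := by
    intro z hz
    have hle : Algebra.adjoin ℂ {U, V} ≤
        (IntermediateField.adjoin ℂ {j' U, j' V}).toSubalgebra.comap j' := by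
      apply Algebra.adjoin_le
      rintro y hy
      rcases hy with rfl | hy
      · exact IntermediateField.subset_adjoin _ _ (by simp)
      · rw [Set.mem_singleton_iff] at hy
        subst hy
        exact IntermediateField.subset_adjoin _ _ (by simp)
    exact hle hz
  have hSmem : j' S ∈ IntermediateField.adjoin ℂ {j' U, j' V} := by
    have hd := den_smul_val Y s hYs
    have hdu := (dom_iff Y s).1 hYs
    have h1 : ev Y (den (Fin 3 × Fin N) s) * (S * PowerSeries.C (W0 c)) =
        ∑ γ, ev Y (num (Fin 3 × Fin N) s c γ) * PowerSeries.C (W0 γ) := by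
      have h2 := congrFun hS c
      simp only [Pi.smul_apply, smul_eq_mul, cst, Matrix.mulVec, dotProduct] at h2
      rw [← h2, Finset.mul_sum]
      refine Finset.sum_congr rfl fun γ _ => ?_
      have h3 := congrFun (congrFun hd c) γ
      simp only [Matrix.smul_apply, Matrix.map_apply, smul_eq_mul] at h3
      rw [← h3, mul_assoc]
    have hCm : ∀ c : ℂ, (PowerSeries.C c : PS) ∈ Algebra.adjoin ℂ {U, V} := fun c =>
      Subalgebra.algebraMap_mem (Algebra.adjoin ℂ {U, V}) c
    have h4 : ∑ γ, ev Y (num (Fin 3 × Fin N) s c γ) * PowerSeries.C (W0 γ) ∈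
        Algebra.adjoin ℂ {U, V} :=
      Subalgebra.sum_mem _ fun γ _ => Subalgebra.mul_mem _ (hevmem _) (hCm _)
    have h5 : j' (ev Y (den (Fin 3 × Fin N) s)) ≠ 0 := (hdu.map j').ne_zero
    have h6 : j' (PowerSeries.C (W0 c)) ≠ 0 := (hcU.map j').ne_zero
    have h7 : j' S = j' (∑ γ, ev Y (num (Fin 3 × Fin N) s c γ) * PowerSeries.C (W0 γ)) /
        (j' (ev Y (den (Fin 3 × Fin N) s)) * j' (PowerSeries.C (W0 c))) := by
      rw [eq_div_iff (mul_ne_zero h5 h6), ← h1, map_mul, map_mul]
      ring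
    rw [h7]
    exact div_mem (hlift _ h4) (mul_mem (hlift _ (hevmem _)) (hlift _ (hCm _)))
  refine mobius_of_curve (u := j' U) (v := j' V) ?_ ?_ hSmem f ?_
  · rw [← map_add, ← map_mul, ← map_mul, hUV, map_one]
  · rw [← map_add, hsum]
    intro h
    exact transcendental_X_add (u + v) ((isAlgebraic_algHom_iff j' hj').1 h)
  · rw [Polynomial.aeval_algHom_apply, Polynomial.aeval_algHom_apply, hpq, map_mul, map_add]

end main

end Pool.Agent.MP_240e45_ag
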