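import Pool.Agent.Lib.MP_240e45_ag.Reducible

/-! Points on the two parts of the level sets. -/

namespace Pool.Agent.MP_240e45_ag

open Matrix

section ringhom

variable {A B : Type*} [Ring A] [Ring B] (φ : A →+* B)

theorem map_ff' (x y : A) : φ (ff x y) = ff (φ x) (φ y) := by
  simp [ff]
theorem map_gg' (x y : A) : φ (gg x y) = gg (φ x) (φ y) := by
  simp [gg]
theorem map_cc' (x y : A) : φ (cc x y) = cc (φ x) (φ y) := by
  simp [cc]

theorem map_inverse' {a : A} (ha : IsUnit a) : φ (Ring.inverse a) = Ring.inverse (φ a) := by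
  symm
  apply ringInverse_eq
  · rw [← map_mul, Ring.mul_inverse_cancel _ ha, map_one]
  · rw [← map_mul, Ring.inverse_mul_cancel _ ha, map_one]

theorem map_rr' {x y : A} (hf : IsUnit (ff x y)) (hg : IsUnit (gg x y)) :
    φ (rr x y) = rr (φ x) (φ y) := by
  simp [rr, map_inverse' φ hf, map_inverse' φ hg, map_ff', map_gg', map_cc']

end ringhom

section blocks

variable (m : ℕ)

/-- block diagonal matrices -/
noncomputable def blk : Matrix (Fin 3) (Fin 3) ℂ × Matrix (Fin m) (Fin m) ℂ →+*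
    Matrix (Fin (3 + m)) (Fin (3 + m)) ℂ where
  toFun p := (Matrix.fromBlocks p.1 0 0 p.2).submatrix finSumFinEquiv.symm finSumFinEquiv.symm
  map_one' := by
    rw [Prod.fst_one, Prod.snd_one, Matrix.fromBlocks_one, Matrix.submatrix_one_equiv]
  map_mul' p q := by
    rw [Matrix.submatrix_mul_equiv, Matrix.fromBlocks_multiply]
    simp
  map_zero' := by
    rw [Prod.fst_zero, Prod.snd_zero, Matrix.fromBlocks_zero]
    rfl
  map_add' p q := by
    have : Matrix.fromBlocks (p + q).1 0 0 (p + q).2 =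
        Matrix.fromBlocks p.1 0 0 p.2 + Matrix.fromBlocks q.1 0 0 q.2 := by
      rw [Matrix.fromBlocks_add]; simp
    rw [this]
    rfl

theorem blk_mulVec (A : Matrix (Fin 3) (Fin 3) ℂ) (B : Matrix (Fin m) (Fin m) ℂ)
    (z : Fin 3 → ℂ) (z' : Fin m → ℂ) :
    blk m (A, B) *ᵥ (fun a => Sum.elim z z' (finSumFinEquiv.symm a)) =
      fun a => Sum.elim (A *ᵥ z) (B *ᵥ z') (finSumFinEquiv.symm a) := by
  show (Matrix.fromBlocks A 0 0 B).submatrix finSumFinEquiv.symm finSumFinEquiv.symm *ᵥ _ = _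
  rw [Matrix.submatrix_mulVec_equiv]
  have : ((fun a => Sum.elim z z' (finSumFinEquiv.symm a)) ∘ ⇑(finSumFinEquiv (m := 3) (n := m)).symm.symm)
      = Sum.elim z z' := by
    ext a; simp
  rw [this, Matrix.fromBlocks_mulVec]
  ext a
  simp


theorem exists_good {w : ℂ} (hw0 : w ≠ 0) (hw4 : w ^ 3 ≠ 4) :
    ∃ t : ℂ, Good t ∧ w ^ 3 * (t ^ 6 - 1) = 4 * t ^ 6 := by
  have h4 : w ^ 3 - 4 ≠ 0 := sub_ne_zero.2 hw4
  obtain ⟨t, ht⟩ := IsAlgClosed.exists_pow_nat_eq (w ^ 3 / (w ^ 3 - 4)) (n := 6) (by norm_num)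
  have ht' : t ^ 6 * (w ^ 3 - 4) = w ^ 3 := by
    rw [ht]; field_simp
  have h1 : (1 - t ^ 6) * (w ^ 3 - 4) = -4 := by
    linear_combination -ht'
  have h2 : 1 - t ^ 6 ≠ 0 := by
    intro h; rw [h, zero_mul] at h1; norm_num at h1
  have h3 : (1 - t) * (1 + t) * (1 + t + t ^ 2) * (1 - t + t ^ 2) = 1 - t ^ 6 := by ring
  rw [← h3] at h2
  refine ⟨t, ⟨?_, ?_, ?_, ?_⟩, by linear_combination ht'⟩
  · intro h; apply h2; rw [h]; ring
  · intro h; apply h2; rw [h]; ring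
  · intro h; apply h2; rw [h]; ring
  · intro h; apply h2; rw [h]; ring

theorem base_pair (m : ℕ) {w : ℂ} (hw0 : w ≠ 0) (hw4 : w ^ 3 ≠ 4) :
    ∃ x y : Matrix (Fin (3 + m)) (Fin (3 + m)) ℂ,
      IsUnit (ff x y) ∧ IsUnit (gg x y) ∧ IsUnit (ff y x) ∧ IsUnit (gg y x) ∧
      ∃ Z : Fin (3 + m) → ℂ, Z ≠ 0 ∧ rr x y *ᵥ Z = w • Z ∧
        ∀ Z', rr x y *ᵥ Z' = w • Z' → ∃ θ : ℂ, Z' = θ • Z := by
  obtain ⟨t, ht, hwt⟩ := exists_good hw0 hw4
  have z1 : IsUnit (ff (0 : Matrix (Fin m) (Fin m) ℂ) 0) := by simp [ff]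
  have z2 : IsUnit (gg (0 : Matrix (Fin m) (Fin m) ℂ) 0) := by simp [gg]
  have z3 : rr (0 : Matrix (Fin m) (Fin m) ℂ) 0 = 0 := by simp [rr, cc]
  have f1 : IsUnit (ff ((xm, 0) : Matrix (Fin 3) (Fin 3) ℂ × Matrix (Fin m) (Fin m) ℂ) (ym t, 0)) :=
    Prod.isUnit_iff.2 ⟨ht.ff, z1⟩
  have f2 : IsUnit (gg ((xm, 0) : Matrix (Fin 3) (Fin 3) ℂ × Matrix (Fin m) (Fin m) ℂ) (ym t, 0)) :=
    Prod.isUnit_iff.2 ⟨ht.gg, z2⟩
  have f3 : IsUnit (ff ((ym t, 0) : Matrix (Fin 3) (Fin 3) ℂ × Matrix (Fin m) (Fin m) ℂ) (xm, 0)) :=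
    Prod.isUnit_iff.2 ⟨ht.ff', z1⟩
  have f4 : IsUnit (gg ((ym t, 0) : Matrix (Fin 3) (Fin 3) ℂ × Matrix (Fin m) (Fin m) ℂ) (xm, 0)) :=
    Prod.isUnit_iff.2 ⟨ht.gg', z2⟩
  have hr : rr ((xm, 0) : Matrix (Fin 3) (Fin 3) ℂ × Matrix (Fin m) (Fin m) ℂ) (ym t, 0) =
      (rr xm (ym t), 0) := by
    apply Prod.ext
    · exact map_rr' (RingHom.fst _ _) f1 f2
    · exact (map_rr' (RingHom.snd (Matrix (Fin 3) (Fin 3) ℂ) (Matrix (Fin m) (Fin m) ℂ)) f1 f2).trans z3
  refine ⟨blk m (xm, 0), blk m (ym t, 0), ?_, ?_, ?_, ?_, ?_⟩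
  · rw [← map_ff']; exact f1.map _
  · rw [← map_gg']; exact f2.map _
  · rw [← map_ff']; exact f3.map _
  · rw [← map_gg']; exact f4.map _
  rw [← map_rr' _ f1 f2, hr, ht.rr]
  set a := (1 - t)⁻¹ with ha
  set b := (1 + t)⁻¹ with hb
  set p := (1 + t + t ^ 2)⁻¹ with hp
  set q := (1 - t + t ^ 2)⁻¹ with hq
  have ha' : (1 - t) * a = 1 := mul_inv_cancel₀ ht.h1
  have hb' : (1 + t) * b = 1 := mul_inv_cancel₀ ht.h2
  have hp' : (1 + t + t ^ 2) * p = 1 := mul_inv_cancel₀ ht.h3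
  have hq' : (1 - t + t ^ 2) * q = 1 := mul_inv_cancel₀ ht.h4
  have hprod : (2 * t ^ 2 * a * b) * (- t ^ 2 * p) * (2 * t ^ 2 * q) = w ^ 3 := by
    have h6 : (1 - t ^ 6) * (a * b * p * q) = 1 := by
      calc (1 - t ^ 6) * (a * b * p * q) = ((1 - t) * a) * ((1 + t) * b) * ((1 + t + t ^ 2) * p) *
            ((1 - t + t ^ 2) * q) := by ring
        _ = 1 := by rw [ha', hb', hp', hq']; ring
    calc (2 * t ^ 2 * a * b) * (- t ^ 2 * p) * (2 * t ^ 2 * q)
        = - (4 * t ^ 6) * (a * b * p * q) := by ring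
      _ = w ^ 3 * ((1 - t ^ 6) * (a * b * p * q)) := by rw [← hwt]; ring
      _ = w ^ 3 := by rw [h6, mul_one]
  refine ⟨fun c => Sum.elim (![w ^ 2, w * (- t ^ 2 * p), (- t ^ 2 * p) * (2 * t ^ 2 * q)] : Fin 3 → ℂ)
    (0 : Fin m → ℂ) (finSumFinEquiv.symm c), ?_, ?_, ?_⟩
  · intro h0
    have := congrFun h0 (finSumFinEquiv (Sum.inl 0))
    simp [hw0] at this
  · rw [blk_mulVec]
    ext c
    simp only [Pi.smul_apply, smul_eq_mul]
    generalize (finSumFinEquiv.symm c) = d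
    rcases d with d | d
    · fin_cases d
      · simp [Matrix.mulVec, dotProduct, Fin.sum_univ_three]
        linear_combination hprod
      · simp [Matrix.mulVec, dotProduct, Fin.sum_univ_three]
        ring
      · simp [Matrix.mulVec, dotProduct, Fin.sum_univ_three]
        ring
    · simp
  · intro Z' hZ'
    have e1 : Z' = fun c => Sum.elim (fun d => Z' (finSumFinEquiv (Sum.inl d)))
        (fun d => Z' (finSumFinEquiv (Sum.inr d))) (finSumFinEquiv.symm c) := by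
      ext c
      generalize hd : (finSumFinEquiv.symm c) = d
      have hc : c = finSumFinEquiv d := by rw [← hd]; simp
      rcases d with d | d
      · simp [hc]
      · simp [hc]
    set z : Fin 3 → ℂ := fun d => Z' (finSumFinEquiv (Sum.inl d)) with hz
    set z' : Fin m → ℂ := fun d => Z' (finSumFinEquiv (Sum.inr d)) with hz'
    rw [e1, blk_mulVec] at hZ'
    have k0 := congrFun hZ' (finSumFinEquiv (Sum.inl 0))
    have k1 := congrFun hZ' (finSumFinEquiv (Sum.inl 1))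
    have k2 := congrFun hZ' (finSumFinEquiv (Sum.inl 2))
    have k3 : ∀ d, z' d = 0 := by
      intro d
      have := congrFun hZ' (finSumFinEquiv (Sum.inr d))
      simp at this
      rcases this with h | h
      · exact absurd h hw0
      · exact h
    simp [Matrix.mulVec, dotProduct, Fin.sum_univ_three] at k0 k1 k2
    refine ⟨z 0 / w ^ 2, ?_⟩
    rw [e1]
    ext c
    simp only [Pi.smul_apply, smul_eq_mul]
    generalize (finSumFinEquiv.symm c) = d
    rcases d with d | d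
    · fin_cases d
      · simp
        field_simp
      · simp
        have : z 1 = (- t ^ 2 * p) * z 0 / w := by
          rw [eq_div_iff hw0]; linear_combination -k1
        rw [this]
        field_simp
      · simp
        have h1 : z 1 = (- t ^ 2 * p) * z 0 / w := by
          rw [eq_div_iff hw0]; linear_combination -k1
        have : z 2 = (2 * t ^ 2 * q) * z 1 / w := by
          rw [eq_div_iff hw0]; linear_combination -k2
        rw [this, h1]
        field_simp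
    · simp [k3]

end blocks

section points

variable {g : ℕ}

/-- the tuple with `x` in place `i`, `y` in place `j` and zeros elsewhere -/
def tup {A : Type*} [Zero A] (i j : Fin g) (x y : A) : Fin g → A :=
  fun k => if k = i then x else if k = j then y else 0

theorem tup_i {A : Type*} [Zero A] (i j : Fin g) (x y : A) : tup i j x y i = x := by
  simp [tup]
theorem tup_j {A : Type*} [Zero A] {i j : Fin g} (hij : i ≠ j) (x y : A) :
    tup i j x y j = y := by
  simp [tup, hij.symm]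

variable {ι : Type*} [Fintype ι] [DecidableEq ι]

theorem det_sub_of_eigen {M : Matrix ι ι ℂ} {w : ℂ} {Z : ι → ℂ} (hZ : Z ≠ 0)
    (h : M *ᵥ Z = w • Z) : (M - algebraMap ℂ _ w).det = 0 := by
  apply Matrix.exists_mulVec_eq_zero_iff.1
  refine ⟨Z, hZ, ?_⟩
  rw [Matrix.sub_mulVec, h, Matrix.algebraMap_eq_diagonal, sub_eq_zero]
  ext a
  simp [Matrix.mulVec_diagonal]

theorem exists_point (m : ℕ) {i j : Fin g} (hij : i ≠ j) {u v : ℂ} (huv : u * v * (u + v) = 1)
    (hne : u ≠ v) (hw4 : (u + v) ^ 3 ≠ 4) :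
    ∃ X : Fin g → Matrix (Fin (3 + m)) (Fin (3 + m)) ℂ, Expr.Dom X (Expr.r0 i j) ∧
      (Expr.val X (Expr.r0 i j) - algebraMap ℂ _ (u + v)).det = 0 ∧
      ev X (pH u v i j) ≠ 0 := by
  have hw0 : u + v ≠ 0 := by
    intro h; rw [h, mul_zero] at huv; exact zero_ne_one huv
  have huv' : v * u * (v + u) = 1 := by rw [← huv]; ring
  obtain ⟨x, y, hf, hg, hf', hg', Z, hZ, hrZ, hun⟩ := base_pair m hw0 hw4
  -- kernel vectors at both points cannot exist simultaneously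
  have key : ∀ W0 W1 W2 W0' W1' W2' : Fin (3 + m) → ℂ, W0 ≠ 0 → W0' ≠ 0 →
      IsKerM x y u v W0 W1 W2 → IsKerM x y v u W0' W1' W2' → False := by
    intro W0 W1 W2 W0' W1' W2' h0 h0' h h'
    have r1 := IsKerM.rr_mulVec huv hf hg h
    have r2 := IsKerM.rr_mulVec huv' hf hg h'
    obtain ⟨θ, hθ⟩ := hun W0 r1
    obtain ⟨θ', hθ'⟩ := hun W0' (by rw [r2, add_comm v u])
    have hθ0 : θ ≠ 0 := by
      rintro rfl; exact h0 (by rw [hθ, zero_smul])
    refine ker_indep huv hf hne h0 h0' h h' (θ' * θ⁻¹) ?_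
    rw [hθ', hθ, smul_smul, mul_assoc, inv_mul_cancel₀ hθ0, mul_one]
  obtain ⟨W0, W1, W2, hW0, hk | hk⟩ := exists_ker huv hf hg hZ hrZ
  · -- use the swapped pair
    refine ⟨tup i j y x, ?_, ?_, ?_⟩
    · rw [dom_r0, tup_i, tup_j hij]
      exact ⟨hg', hf'⟩
    · rw [val_r0, tup_i, tup_j hij]
      have hk' : IsKerM y x v u W0 W2 W1 := IsKer.swap hk
      refine det_sub_of_eigen hW0 ?_
      rw [IsKerM.rr_mulVec huv' hf' hg' hk', add_comm v u]
    · rw [ev_pH, tup_i, tup_j hij]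
      refine mul_ne_zero ?_ (mul_ne_zero ?_ ?_)
      · intro h0
        obtain ⟨V0, V1, V2, hV, hkV⟩ := (det_hmat_eq_zero _ _ _ _).1 h0
        have hV0 : V0 ≠ 0 := by
          intro hV0
          have := IsKerM.W0_ne_zero huv hf' hkV hV0
          exact hV ⟨hV0, this.1, this.2⟩
        exact key _ _ _ _ _ _ hW0 hV0 hk (IsKer.swap hkV)
      · exact ((Matrix.isUnit_iff_isUnit_det _).1 hf').ne_zero
      · exact ((Matrix.isUnit_iff_isUnit_det _).1 hg').ne_zero
  · refine ⟨tup i j x y, ?_, ?_, ?_⟩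
    · rw [dom_r0, tup_i, tup_j hij]
      exact ⟨hg, hf⟩
    · rw [val_r0, tup_i, tup_j hij]
      refine det_sub_of_eigen hW0 ?_
      rw [IsKerM.rr_mulVec huv' hf hg hk, add_comm v u]
    · rw [ev_pH, tup_i, tup_j hij]
      refine mul_ne_zero ?_ (mul_ne_zero ?_ ?_)
      · intro h0
        obtain ⟨V0, V1, V2, hV, hkV⟩ := (det_hmat_eq_zero _ _ _ _).1 h0
        have hV0 : V0 ≠ 0 := by
          intro hV0
          have := IsKerM.W0_ne_zero huv hf hkV hV0
          exact hV ⟨hV0, this.1, this.2⟩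
        exact key _ _ _ _ _ _ hV0 hW0 hkV hk
      · exact ((Matrix.isUnit_iff_isUnit_det _).1 hf).ne_zero
      · exact ((Matrix.isUnit_iff_isUnit_det _).1 hg).ne_zero

end points

end Pool.Agent.MP_240e45_ag
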