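import Pool.Agent.Lib.MP_240e45_ag.NumDen
import Pool.Agent.Lib.MP_240e45_ag.Kernel

/-! The explicit noncommutative rational expression. -/

namespace Pool.Agent.MP_240e45_ag

open Matrix

namespace Expr

variable {g : ℕ}

def one : Expr g := const 1
def neg (a : Expr g) : Expr g := mul (const (-1)) a
def sub (a b : Expr g) : Expr g := add a (neg b)

variable {A : Type*} [Ring A] [Algebra ℂ A] (X : Fin g → A) (a b : Expr g)

@[simp] theorem val_one : val X (one : Expr g) = 1 := by simp [one, val]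
@[simp] theorem val_neg : val X (neg a) = - val X a := by simp [neg, val]
@[simp] theorem val_sub : val X (sub a b) = val X a - val X b := by
  simp [sub, val, sub_eq_add_neg]
@[simp] theorem val_add : val X (add a b) = val X a + val X b := rfl
@[simp] theorem val_mul : val X (mul a b) = val X a * val X b := rfl
@[simp] theorem val_inv : val X (inv a) = Ring.inverse (val X a) := rfl
@[simp] theorem val_var (i : Fin g) : val X (var i) = X i := rfl
@[simp] theorem val_const (c : ℂ) : val X (const c : Expr g) = algebraMap ℂ A c := rfl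
@[simp] theorem dom_one : Dom X (one : Expr g) := trivial
@[simp] theorem dom_neg : Dom X (neg a) ↔ Dom X a := by simp [neg, Dom]
@[simp] theorem dom_sub : Dom X (sub a b) ↔ Dom X a ∧ Dom X b := by
  simp [sub, Dom, neg]
@[simp] theorem dom_add : Dom X (add a b) ↔ Dom X a ∧ Dom X b := Iff.rfl
@[simp] theorem dom_mul : Dom X (mul a b) ↔ Dom X a ∧ Dom X b := Iff.rfl
@[simp] theorem dom_inv : Dom X (inv a) ↔ Dom X a ∧ IsUnit (val X a) := Iff.rfl
@[simp] theorem dom_var (i : Fin g) : Dom X (var i) := trivial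
@[simp] theorem dom_const (c : ℂ) : Dom X (const c : Expr g) := trivial

/-- `xy - yx` -/
def cE (i j : Fin g) : Expr g := sub (mul (var i) (var j)) (mul (var j) (var i))
/-- `1 - (x+y)xy` -/
def fE (i j : Fin g) : Expr g := sub one (mul (add (var i) (var j)) (mul (var i) (var j)))
/-- `1 - yx(x+y)` -/
def gE (i j : Fin g) : Expr g := sub one (mul (var j) (mul (var i) (add (var i) (var j))))
/-- `-(1 - yx(x+y))⁻¹ (xy - yx) (1 - (x+y)xy)⁻¹ (xy - yx)` -/
def r0 (i j : Fin g) : Expr g :=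
  neg (mul (mul (inv (gE i j)) (cE i j)) (mul (inv (fE i j)) (cE i j)))

end Expr

section elements

variable {A : Type*} [Ring A]

def cc (x y : A) : A := x * y - y * x
def ff (x y : A) : A := 1 - (x + y) * (x * y)
def gg (x y : A) : A := 1 - y * (x * (x + y))
noncomputable def rr (x y : A) : A :=
  - ((Ring.inverse (gg x y) * cc x y) * (Ring.inverse (ff x y) * cc x y))

variable [Algebra ℂ A] {g : ℕ} (X : Fin g → A) (i j : Fin g)

theorem val_cE : Expr.val X (Expr.cE i j) = cc (X i) (X j) := by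
  simp [Expr.cE, cc]
theorem val_fE : Expr.val X (Expr.fE i j) = ff (X i) (X j) := by
  simp [Expr.fE, ff]
theorem val_gE : Expr.val X (Expr.gE i j) = gg (X i) (X j) := by
  simp [Expr.gE, gg]
theorem dom_cE : Expr.Dom X (Expr.cE i j) := by
  simp [Expr.cE]
theorem dom_fE : Expr.Dom X (Expr.fE i j) := by
  simp [Expr.fE]
theorem dom_gE : Expr.Dom X (Expr.gE i j) := by
  simp [Expr.gE]
theorem val_r0 : Expr.val X (Expr.r0 i j) = rr (X i) (X j) := by
  simp [Expr.r0, rr, val_cE, val_fE, val_gE]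
theorem dom_r0 : Expr.Dom X (Expr.r0 i j) ↔ IsUnit (gg (X i) (X j)) ∧ IsUnit (ff (X i) (X j)) := by
  simp [Expr.r0, val_fE, val_gE, dom_cE, dom_fE, dom_gE]

end elements

section matrices

variable {ι : Type*} [Fintype ι] [DecidableEq ι] {R : Type*} [CommRing R]

/-- kernel vectors of the pencil for matrices -/
abbrev IsKerM (x y : Matrix ι ι R) (u v : R) (W0 W1 W2 : ι → R) : Prop :=
  IsKer (Matrix.mulVecLin x) (Matrix.mulVecLin y) u v W0 W1 W2

theorem ff_mulVec (x y : Matrix ι ι R) (z : ι → R) :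
    (ff x y) *ᵥ z = z - (x *ᵥ (x *ᵥ (y *ᵥ z)) + y *ᵥ (x *ᵥ (y *ᵥ z))) := by
  simp [ff, Matrix.sub_mulVec, Matrix.add_mulVec, Matrix.add_mul, Matrix.mulVec_mulVec]

theorem gg_mulVec (x y : Matrix ι ι R) (z : ι → R) :
    (gg x y) *ᵥ z = z - (y *ᵥ (x *ᵥ (x *ᵥ z)) + y *ᵥ (x *ᵥ (y *ᵥ z))) := by
  simp [gg, Matrix.sub_mulVec, Matrix.add_mulVec, Matrix.mul_add, Matrix.mulVec_mulVec]

theorem cc_mulVec (x y : Matrix ι ι R) (z : ι → R) :
    (cc x y) *ᵥ z = x *ᵥ (y *ᵥ z) - y *ᵥ (x *ᵥ z) := by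
  simp [cc, Matrix.sub_mulVec, Matrix.mulVec_mulVec]

theorem isUnit_mulVec_inj {M : Matrix ι ι R} (hM : IsUnit M) {z z' : ι → R}
    (h : M *ᵥ z = M *ᵥ z') : z = z' := by
  have := congrArg (fun t => Ring.inverse M *ᵥ t) h
  simpa [Matrix.mulVec_mulVec, Ring.inverse_mul_cancel _ hM] using this

variable {x y : Matrix ι ι R} {u v : R} {W0 W1 W2 : ι → R}

theorem IsKerM.c_W2 (huv : u * v * (u + v) = 1) (h : IsKerM x y u v W0 W1 W2) :
    cc x y *ᵥ W2 = gg x y *ᵥ W0 := by
  rw [cc_mulVec, gg_mulVec]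
  exact IsKer.c_W2 huv h

theorem IsKerM.F_W2 (huv : u * v * (u + v) = 1) (h : IsKerM x y u v W0 W1 W2) :
    ff x y *ᵥ W2 = -((u * v) • (cc x y *ᵥ W0)) := by
  rw [cc_mulVec, ff_mulVec]
  exact IsKer.F_W2 huv h

/-- kernel vectors give eigenvectors of the rational expression -/
theorem IsKerM.rr_mulVec (huv : u * v * (u + v) = 1) (hf : IsUnit (ff x y)) (hg : IsUnit (gg x y))
    (h : IsKerM x y u v W0 W1 W2) :
    rr x y *ᵥ W0 = (u + v) • W0 := by
  have h1 := IsKerM.c_W2 huv h
  have h2 := IsKerM.F_W2 huv h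
  have h3 : W2 = -((u * v) • (Ring.inverse (ff x y) *ᵥ (cc x y *ᵥ W0))) := by
    apply isUnit_mulVec_inj hf
    rw [h2, Matrix.mulVec_neg, Matrix.mulVec_smul, Matrix.mulVec_mulVec, Matrix.mulVec_mulVec,
      Ring.mul_inverse_cancel _ hf, one_mul]
  have h4 : W0 = Ring.inverse (gg x y) *ᵥ (cc x y *ᵥ W2) := by
    rw [h1, Matrix.mulVec_mulVec, Ring.inverse_mul_cancel _ hg, Matrix.one_mulVec]
  have h5 : W0 = (u * v) • (rr x y *ᵥ W0) := by
    conv_lhs => rw [h4, h3]
    simp [rr, Matrix.neg_mulVec, Matrix.mulVec_neg, Matrix.mulVec_smul, Matrix.mulVec_mulVec,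
      Matrix.mul_assoc]
  have h6 : (u + v) • W0 = (u + v) • ((u * v) • (rr x y *ᵥ W0)) := congrArg _ h5
  rw [h6, smul_smul, mul_comm, huv, one_smul]

theorem IsKerM.W0_ne_zero (huv : u * v * (u + v) = 1) (hf : IsUnit (ff x y))
    (h : IsKerM x y u v W0 W1 W2) (h0 : W0 = 0) : W1 = 0 ∧ W2 = 0 := by
  refine IsKer.eq_zero huv ?_ h h0
  intro z hz
  apply isUnit_mulVec_inj hf
  rw [Matrix.mulVec_zero, ff_mulVec]
  exact hz

end matrices

section complex

variable {ι : Type*} [Fintype ι] [DecidableEq ι] {K : Type*} [Field K]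
variable {x y : Matrix ι ι K} {u v : K} 

/-- every eigenvector with eigenvalue `u + v` of the rational expression comes with
a kernel vector of the pencil at `(u, v)` or at `(v, u)`. -/
theorem exists_ker (huv : u * v * (u + v) = 1) (hf : IsUnit (ff x y)) (hg : IsUnit (gg x y))
    {Z : ι → K} (hZ : Z ≠ 0) (hr : rr x y *ᵥ Z = (u + v) • Z) :
    ∃ W0 W1 W2 : ι → K, W0 ≠ 0 ∧ (IsKerM x y u v W0 W1 W2 ∨ IsKerM x y v u W0 W1 W2) := by
  set W2 : ι → K := -((u * v) • (Ring.inverse (ff x y) *ᵥ (cc x y *ᵥ Z))) with hW2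
  set W1 : ι → K := x *ᵥ Z + y *ᵥ Z - W2 with hW1
  have hF : ff x y *ᵥ W2 = -((u * v) • (cc x y *ᵥ Z)) := by
    rw [hW2, Matrix.mulVec_neg, Matrix.mulVec_smul, Matrix.mulVec_mulVec, Matrix.mulVec_mulVec,
      Ring.mul_inverse_cancel _ hf, one_mul]
  have hG : cc x y *ᵥ W2 = gg x y *ᵥ Z := by
    have h1 : gg x y *ᵥ (rr x y *ᵥ Z) = (u + v) • (gg x y *ᵥ Z) := by
      rw [hr, Matrix.mulVec_smul]
    have h2 : (u * v) • (gg x y *ᵥ (rr x y *ᵥ Z)) = cc x y *ᵥ W2 := by
      rw [hW2, rr, Matrix.mulVec_neg, Matrix.mulVec_smul]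
      simp only [Matrix.neg_mulVec, Matrix.mulVec_neg, Matrix.mulVec_mulVec]
      have e : gg x y * (Ring.inverse (gg x y) * cc x y * (Ring.inverse (ff x y) * cc x y)) =
          cc x y * (Ring.inverse (ff x y) * cc x y) := by
        calc _ = (gg x y * Ring.inverse (gg x y)) * (cc x y * (Ring.inverse (ff x y) * cc x y)) := by
              simp only [mul_assoc]
          _ = _ := by rw [Ring.mul_inverse_cancel _ hg, one_mul]
      rw [e, smul_neg]
    rw [← h2, h1, smul_smul, huv, one_smul]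
  rw [cc_mulVec, gg_mulVec] at hG
  rw [ff_mulVec, cc_mulVec] at hF
  have h1 : x *ᵥ Z + y *ᵥ Z = W1 + W2 := by rw [hW1]; abel
  set ξ1 : ι → K := (u * v) • Z + x *ᵥ W1 + v • W2 with hξ1
  set ξ2 : ι → K := (u * v) • Z + u • W1 + y *ᵥ W2 with hξ2
  have key := ker_aux (x := Matrix.mulVecLin x) (y := Matrix.mulVecLin y) huv hG hF h1 ξ1 ξ2
    hξ1 hξ2
  by_cases hξ : ξ1 = 0 ∧ ξ2 = 0
  · refine ⟨Z, W1, W2, hZ, Or.inl ⟨h1, ?_, ?_⟩⟩
    · have := hξ.1
      rw [hξ1] at this
      simp only [Matrix.mulVecLin_apply]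
      linear_combination (norm := module) this
    · have := hξ.2
      rw [hξ2] at this
      simp only [Matrix.mulVecLin_apply]
      linear_combination (norm := module) this
  · have huv' : v * u * (v + u) = 1 := by rw [← huv]; ring
    refine ⟨_, _, _, ?_, Or.inr key⟩
    intro h0
    apply hξ
    have := IsKerM.W0_ne_zero huv' hf key h0
    exact ⟨by simpa using this.2, this.1⟩

/-- kernel vectors at `(u, v)` and `(v, u)` have independent first components -/
theorem ker_indep (huv : u * v * (u + v) = 1) (hf : IsUnit (ff x y)) (hne : u ≠ v)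
    {W0 W1 W2 W0' W1' W2' : ι → K} (hW0 : W0 ≠ 0) (hW0' : W0' ≠ 0)
    (h : IsKerM x y u v W0 W1 W2) (h' : IsKerM x y v u W0' W1' W2') (θ : K) (hθ : W0' = θ • W0) :
    False := by
  have huv' : v * u * (v + u) = 1 := by rw [← huv]; ring
  have hθ0 : θ ≠ 0 := by
    rintro rfl
    exact hW0' (by rw [hθ, zero_smul])
  have hu : u * v ≠ 0 := by
    intro h0; rw [h0, zero_mul] at huv; exact zero_ne_one huv
  have e2 : W2' = θ • W2 := by
    apply isUnit_mulVec_inj hf
    rw [IsKerM.F_W2 huv' h', Matrix.mulVec_smul, IsKerM.F_W2 huv h, hθ, Matrix.mulVec_smul]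
    module
  have e1 : W1' = θ • W1 := by
    have a := h.e0
    have a' := h'.e0
    rw [hθ, e2] at a'
    simp only [map_smul] at a'
    linear_combination (norm := module) -a' + θ • a
  have b := h.e1
  have b' := h'.e1
  have d := h.e2
  have d' := h'.e2
  rw [hθ, e1, e2] at b' d'
  simp only [map_smul] at b' d'
  have f2 : W2 = 0 := by
    have : (θ * (u - v)) • W2 = 0 := by
      linear_combination (norm := module) - θ • b + b'
    rcases smul_eq_zero.1 this with h0 | h0
    · exfalso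
      rcases mul_eq_zero.1 h0 with h0 | h0
      · exact hθ0 h0
      · exact hne (sub_eq_zero.1 h0)
    · exact h0
  have f1 : W1 = 0 := by
    have : (θ * (u - v)) • W1 = 0 := by
      linear_combination (norm := module) θ • d - d'
    rcases smul_eq_zero.1 this with h0 | h0
    · exfalso
      rcases mul_eq_zero.1 h0 with h0 | h0
      · exact hθ0 h0
      · exact hne (sub_eq_zero.1 h0)
    · exact h0
  rw [f1, f2] at b
  simp only [map_zero, add_zero] at b
  have : (u * v) • W0 = 0 := by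
    linear_combination (norm := module) b
  rcases smul_eq_zero.1 this with h0 | h0
  · exact hu h0
  · exact hW0 h0

end complex

end Pool.Agent.MP_240e45_ag
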