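import Pool.Agent.Lib.MP_240e45_ag.Witness

/-! Reducibility of the level sets. -/

namespace Pool.Agent.MP_240e45_ag

open Matrix

section pencil

variable {ι : Type*} [Fintype ι] [DecidableEq ι] {R S : Type*} [CommRing R] [CommRing S]

/-- blocks of the pencil -/
def hblk (u v : R) (x y : Matrix ι ι R) : Fin 3 → Fin 3 → Matrix ι ι R
  | 0, 0 => -(x + y)
  | 0, 1 => 1
  | 0, 2 => 1
  | 1, 0 => (u * v) • 1
  | 1, 1 => x
  | 1, 2 => v • 1
  | 2, 0 => (u * v) • 1
  | 2, 1 => u • 1
  | 2, 2 => y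

def hmat (u v : R) (x y : Matrix ι ι R) : Matrix (Fin 3 × ι) (Fin 3 × ι) R :=
  Matrix.of fun p q => hblk u v x y p.1 q.1 p.2 q.2

omit [Fintype ι] in
theorem smul_one_map (f : R →+* S) (c : R) :
    (c • (1 : Matrix ι ι R)).map f = f c • (1 : Matrix ι ι S) := by
  ext a b
  simp only [Matrix.map_apply, Matrix.smul_apply, Matrix.one_apply, smul_eq_mul]
  split_ifs <;> simp

omit [Fintype ι] in
theorem hblk_map (f : R →+* S) (u v : R) (x y : Matrix ι ι R) (p q : Fin 3) :
    (hblk u v x y p q).map f = hblk (f u) (f v) (x.map f) (y.map f) p q := by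
  have h1 : (1 : Matrix ι ι R).map f = 1 := Matrix.map_one f (map_zero f) (map_one f)
  match p, q with
  | 0, 0 =>
    show (-(x + y)).map f = -(x.map f + y.map f)
    ext a b; simp
  | 0, 1 => exact h1
  | 0, 2 => exact h1
  | 1, 0 =>
    show ((u * v) • (1 : Matrix ι ι R)).map f = (f u * f v) • (1 : Matrix ι ι S)
    rw [smul_one_map, map_mul]
  | 1, 1 => rfl
  | 1, 2 => exact smul_one_map f v
  | 2, 0 =>
    show ((u * v) • (1 : Matrix ι ι R)).map f = (f u * f v) • (1 : Matrix ι ι S)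
    rw [smul_one_map, map_mul]
  | 2, 1 => exact smul_one_map f u
  | 2, 2 => rfl

omit [Fintype ι] in
theorem hmat_map (f : R →+* S) (u v : R) (x y : Matrix ι ι R) :
    (hmat u v x y).map f = hmat (f u) (f v) (x.map f) (y.map f) := by
  ext ⟨p, a⟩ ⟨q, b⟩
  exact congrFun (congrFun (hblk_map f u v x y p q) a) b

theorem hmat_mulVec (u v : R) (x y : Matrix ι ι R) (W : Fin 3 → ι → R) (p : Fin 3) (a : ι) :
    (hmat u v x y *ᵥ (fun q : Fin 3 × ι => W q.1 q.2)) (p, a) =
      (∑ k : Fin 3, hblk u v x y p k *ᵥ W k) a := by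
  simp only [Matrix.mulVec, dotProduct, hmat, Matrix.of_apply, Fintype.sum_prod_type,
    Finset.sum_apply]

theorem hblk_row0 (u v : R) (x y : Matrix ι ι R) (W : Fin 3 → ι → R) :
    (∑ k : Fin 3, hblk u v x y 0 k *ᵥ W k) = -(x *ᵥ W 0 + y *ᵥ W 0) + W 1 + W 2 := by
  rw [Fin.sum_univ_three]
  show (-(x + y)) *ᵥ W 0 + (1 : Matrix ι ι R) *ᵥ W 1 + (1 : Matrix ι ι R) *ᵥ W 2 = _
  rw [Matrix.neg_mulVec, Matrix.add_mulVec, Matrix.one_mulVec, Matrix.one_mulVec]

theorem hblk_row1 (u v : R) (x y : Matrix ι ι R) (W : Fin 3 → ι → R) :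
    (∑ k : Fin 3, hblk u v x y 1 k *ᵥ W k) = (u * v) • W 0 + x *ᵥ W 1 + v • W 2 := by
  rw [Fin.sum_univ_three]
  show ((u * v) • (1 : Matrix ι ι R)) *ᵥ W 0 + x *ᵥ W 1 + (v • (1 : Matrix ι ι R)) *ᵥ W 2 = _
  rw [Matrix.smul_mulVec, Matrix.smul_mulVec, Matrix.one_mulVec, Matrix.one_mulVec]

theorem hblk_row2 (u v : R) (x y : Matrix ι ι R) (W : Fin 3 → ι → R) :
    (∑ k : Fin 3, hblk u v x y 2 k *ᵥ W k) = (u * v) • W 0 + u • W 1 + y *ᵥ W 2 := by
  rw [Fin.sum_univ_three]
  show ((u * v) • (1 : Matrix ι ι R)) *ᵥ W 0 + (u • (1 : Matrix ι ι R)) *ᵥ W 1 + y *ᵥ W 2 = _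
  rw [Matrix.smul_mulVec, Matrix.smul_mulVec, Matrix.one_mulVec, Matrix.one_mulVec]

theorem hmat_mulVec_eq_zero (u v : R) (x y : Matrix ι ι R) (W : Fin 3 → ι → R) :
    hmat u v x y *ᵥ (fun q : Fin 3 × ι => W q.1 q.2) = 0 ↔
      IsKerM x y u v (W 0) (W 1) (W 2) := by
  have key : hmat u v x y *ᵥ (fun q : Fin 3 × ι => W q.1 q.2) = 0 ↔
      ∀ p : Fin 3, (∑ k : Fin 3, hblk u v x y p k *ᵥ W k) = 0 := by
    constructor
    · intro h p
      ext a
      rw [← hmat_mulVec, h]; rfl
    · intro h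
      ext ⟨p, a⟩
      rw [hmat_mulVec, h]; rfl
  rw [key]
  constructor
  · intro h
    have h0 := h 0
    have h1 := h 1
    have h2 := h 2
    rw [hblk_row0] at h0
    rw [hblk_row1] at h1
    rw [hblk_row2] at h2
    refine ⟨?_, ?_, ?_⟩
    · simp only [Matrix.mulVecLin_apply]
      linear_combination (norm := module) -h0
    · simp only [Matrix.mulVecLin_apply]
      linear_combination (norm := module) h1
    · simp only [Matrix.mulVecLin_apply]
      linear_combination (norm := module) h2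
  · rintro ⟨e0, e1, e2⟩ p
    simp only [Matrix.mulVecLin_apply] at e0 e1 e2
    match p with
    | 0 =>
      rw [hblk_row0]
      linear_combination (norm := module) -e0
    | 1 =>
      rw [hblk_row1]
      linear_combination (norm := module) e1
    | 2 =>
      rw [hblk_row2]
      linear_combination (norm := module) e2

end pencil

section field

variable {ι : Type*} [Fintype ι] [DecidableEq ι] {K : Type*} [Field K]

theorem det_hmat_eq_zero (u v : K) (x y : Matrix ι ι K) :
    (hmat u v x y).det = 0 ↔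
      ∃ W0 W1 W2 : ι → K, ¬ (W0 = 0 ∧ W1 = 0 ∧ W2 = 0) ∧ IsKerM x y u v W0 W1 W2 := by
  rw [← Matrix.exists_mulVec_eq_zero_iff]
  constructor
  · rintro ⟨W, hW, h⟩
    let W' : Fin 3 → ι → K := fun k a => W (k, a)
    have : W = fun q : Fin 3 × ι => W' q.1 q.2 := rfl
    rw [this, hmat_mulVec_eq_zero] at h
    refine ⟨_, _, _, ?_, h⟩
    rintro ⟨h0, h1, h2⟩
    apply hW
    ext ⟨k, a⟩
    fin_cases k
    · exact congrFun h0 a
    · exact congrFun h1 a
    · exact congrFun h2 a
  · rintro ⟨W0, W1, W2, hne, h⟩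
    refine ⟨fun q : Fin 3 × ι => (![W0, W1, W2] : Fin 3 → ι → K) q.1 q.2, ?_, ?_⟩
    · intro h0
      apply hne
      refine ⟨?_, ?_, ?_⟩
      · ext a; exact congrFun h0 (0, a)
      · ext a; exact congrFun h0 (1, a)
      · ext a; exact congrFun h0 (2, a)
    · rw [hmat_mulVec_eq_zero]
      exact h

end field

section polys

variable {g : ℕ} {ι : Type*} [Fintype ι] [DecidableEq ι] {R : Type*} [CommRing R] [Algebra ℂ R]

variable (ι) in
/-- generic matrices -/
noncomputable def genM (i : Fin g) : Matrix ι ι (PolyEnt g ι) :=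
  Matrix.of fun a b => MvPolynomial.X (i, a, b)

omit [Fintype ι] [DecidableEq ι] in
theorem genM_map (X : Fin g → Matrix ι ι R) (i : Fin g) :
    (genM ι i).map (ev X : PolyEnt g ι →+* R) = X i := by
  ext a b
  simp [genM, ev]

theorem map_ff {S : Type*} [CommRing S] (f : R →+* S) (x y : Matrix ι ι R) :
    (ff x y).map f = ff (x.map f) (y.map f) := by
  have : f.mapMatrix (ff x y) = ff (f.mapMatrix x) (f.mapMatrix y) := by
    simp only [ff, map_sub, map_mul, map_add, map_one]
  exact this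

theorem map_gg {S : Type*} [CommRing S] (f : R →+* S) (x y : Matrix ι ι R) :
    (gg x y).map f = gg (x.map f) (y.map f) := by
  have : f.mapMatrix (gg x y) = gg (f.mapMatrix x) (f.mapMatrix y) := by
    simp only [gg, map_sub, map_mul, map_add, map_one]
  exact this

/-- the polynomial cutting out one part of the level set -/
noncomputable def pH (u v : ℂ) (i j : Fin g) : PolyEnt g ι :=
  (hmat (MvPolynomial.C u) (MvPolynomial.C v) (genM ι i) (genM ι j)).det *
    ((ff (genM ι i) (genM ι j)).det * (gg (genM ι i) (genM ι j)).det)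

theorem ev_pH (u v : ℂ) (i j : Fin g) (X : Fin g → Matrix ι ι ℂ) :
    ev X (pH u v i j) = (hmat u v (X i) (X j)).det *
      ((ff (X i) (X j)).det * (gg (X i) (X j)).det) := by
  have h1 : ev X (hmat (MvPolynomial.C u) (MvPolynomial.C v) (genM ι i) (genM ι j)).det =
      (hmat u v (X i) (X j)).det := by
    have := RingHom.map_det (ev X : PolyEnt g ι →+* ℂ)
      (hmat (MvPolynomial.C u) (MvPolynomial.C v) (genM ι i) (genM ι j))
    rw [RingHom.mapMatrix_apply, hmat_map, genM_map, genM_map] at this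
    simpa [ev] using this
  have h2 : ev X (ff (genM ι i) (genM ι j)).det = (ff (X i) (X j)).det := by
    have := RingHom.map_det (ev X : PolyEnt g ι →+* ℂ) (ff (genM ι i) (genM ι j))
    rw [RingHom.mapMatrix_apply, map_ff, genM_map, genM_map] at this
    exact this
  have h3 : ev X (gg (genM ι i) (genM ι j)).det = (gg (X i) (X j)).det := by
    have := RingHom.map_det (ev X : PolyEnt g ι →+* ℂ) (gg (genM ι i) (genM ι j))
    rw [RingHom.mapMatrix_apply, map_gg, genM_map, genM_map] at this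
    exact this
  rw [pH, map_mul, map_mul, h1, h2, h3]

/-- the level set of the explicit expression is covered by two closed sets -/
theorem level_cover {u v : ℂ} (huv : u * v * (u + v) = 1) (i j : Fin g)
    (X : Fin g → Matrix ι ι ℂ)
    (h : Expr.Dom X (Expr.r0 i j) → (Expr.val X (Expr.r0 i j) - algebraMap ℂ _ (u + v)).det = 0) :
    ev X (pH u v i j) = 0 ∨ ev X (pH v u i j) = 0 := by
  rw [ev_pH, ev_pH]
  by_cases hd : Expr.Dom X (Expr.r0 i j)
  · have h' := h hd
    rw [dom_r0] at hd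
    obtain ⟨hg, hf⟩ := hd
    rw [val_r0] at h'
    obtain ⟨Z, hZ, hZ'⟩ := Matrix.exists_mulVec_eq_zero_iff.2 h'
    have hZ2 : rr (X i) (X j) *ᵥ Z = (u + v) • Z := by
      rw [Matrix.sub_mulVec, Matrix.algebraMap_eq_diagonal, sub_eq_zero] at hZ'
      rw [hZ']
      ext a
      simp [Matrix.mulVec_diagonal]
    obtain ⟨W0, W1, W2, hW0, hk | hk⟩ := exists_ker huv hf hg hZ hZ2
    · left
      have : (hmat u v (X i) (X j)).det = 0 :=
        (det_hmat_eq_zero _ _ _ _).2 ⟨W0, W1, W2, fun h0 => hW0 h0.1, hk⟩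
      rw [this, zero_mul]
    · right
      have : (hmat v u (X i) (X j)).det = 0 :=
        (det_hmat_eq_zero _ _ _ _).2 ⟨W0, W1, W2, fun h0 => hW0 h0.1, hk⟩
      rw [this, zero_mul]
  · rw [dom_r0] at hd
    left
    have : (ff (X i) (X j)).det * (gg (X i) (X j)).det = 0 := by
      by_contra hne
      apply hd
      rw [Matrix.isUnit_iff_isUnit_det, Matrix.isUnit_iff_isUnit_det, isUnit_iff_ne_zero,
        isUnit_iff_ne_zero]
      exact ⟨right_ne_zero_of_mul hne, left_ne_zero_of_mul hne⟩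
    rw [this, mul_zero]

end polys

end Pool.Agent.MP_240e45_ag
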