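import Pool.Agent.Lib.MP_240e45_ag.Deform

/-! Deformation over the ring of formal power series. -/

namespace Pool.Agent.MP_240e45_ag

open Matrix

/-- the ring of formal power series -/
abbrev PS : Type := PowerSeries ℂ

theorem exists_series {u v : ℂ} (huv : u * v * (u + v) = 1) (hne : u ≠ v) :
    ∃ U V : PS, U * V * (U + V) = 1 ∧ PowerSeries.constantCoeff U = u ∧
      PowerSeries.constantCoeff V = v ∧ U + V = PowerSeries.C (u + v) + PowerSeries.X := by
  have hw0 : u + v ≠ 0 := by
    intro h; rw [h, mul_zero] at huv; exact zero_ne_one huv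
  set w : PS := PowerSeries.C (u + v) + PowerSeries.X with hw
  have hwc : PowerSeries.constantCoeff w = u + v := by simp [hw]
  have hwu : IsUnit w := by
    rw [PowerSeries.isUnit_iff_constantCoeff, hwc, isUnit_iff_ne_zero]
    exact hw0
  obtain ⟨w', hw'⟩ := hwu.exists_right_inv
  have hw'c : PowerSeries.constantCoeff w' = (u + v)⁻¹ := by
    have := congrArg PowerSeries.constantCoeff hw'
    rw [map_mul, hwc, map_one] at this
    exact eq_inv_of_mul_eq_one_right this
  set f : Polynomial PS := Polynomial.X ^ 2 + (Polynomial.C (-w) * Polynomial.X + Polynomial.C w')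
    with hf
  have hmonic : f.Monic := by
    apply Polynomial.monic_X_pow_add
    refine lt_of_le_of_lt (Polynomial.degree_linear_le) ?_
    norm_num
  have heval : Polynomial.eval (PowerSeries.C u) f ∈
      Ideal.span {(PowerSeries.X : PowerSeries ℂ)} := by
    rw [Ideal.mem_span_singleton, PowerSeries.X_dvd_iff]
    have e1 : Polynomial.eval (PowerSeries.C u) f =
        PowerSeries.C u ^ 2 + (-w * PowerSeries.C u + w') := by
      rw [hf]
      simp only [Polynomial.eval_add, Polynomial.eval_pow, Polynomial.eval_X,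
        Polynomial.eval_mul, Polynomial.eval_C]
    rw [e1]
    simp only [map_add, map_pow, map_mul, map_neg, hwc, hw'c, PowerSeries.constantCoeff_C]
    have : u * v = (u + v)⁻¹ := eq_inv_of_mul_eq_one_left huv
    rw [← this]; ring
  have hder : IsUnit (Ideal.Quotient.mk (Ideal.span {(PowerSeries.X : PowerSeries ℂ)})
      (Polynomial.eval (PowerSeries.C u) (Polynomial.derivative f))) := by
    apply IsUnit.map
    rw [PowerSeries.isUnit_iff_constantCoeff, isUnit_iff_ne_zero]
    have : Polynomial.eval (PowerSeries.C u) (Polynomial.derivative f) =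
        2 * PowerSeries.C u - w := by
      simp [hf]
      ring
    rw [this, map_sub, map_mul, hwc, PowerSeries.constantCoeff_C]
    have h2 : (PowerSeries.constantCoeff (2 : PS)) = 2 := map_ofNat _ 2
    rw [h2]
    intro h
    apply hne
    linear_combination h
  obtain ⟨U, hU, hU'⟩ := HenselianRing.is_henselian f hmonic (PowerSeries.C u) heval hder
  have hUc : PowerSeries.constantCoeff U = u := by
    rw [Ideal.mem_span_singleton, PowerSeries.X_dvd_iff, map_sub, PowerSeries.constantCoeff_C,
      sub_eq_zero] at hU'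
    exact hU'
  have hroot : U ^ 2 - w * U + w' = 0 := by
    have : Polynomial.eval U f = 0 := hU
    simp only [hf, Polynomial.eval_add, Polynomial.eval_pow, Polynomial.eval_X,
      Polynomial.eval_mul, Polynomial.eval_C] at this
    linear_combination this
  refine ⟨U, w - U, ?_, hUc, ?_, by ring⟩
  · linear_combination -w * hroot + hw'
  · rw [map_sub, hwc, hUc]; ring

section deform

variable {ι : Type*} [Fintype ι] [DecidableEq ι]

/-- constants as power series, entrywise -/
noncomputable def cst (W : ι → ℂ) : ι → PS := fun a => PowerSeries.C (W a)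

noncomputable def defo (x : Matrix ι ι ℂ) (a : ι → PS) (p : ι → ℂ) : Matrix ι ι PS :=
  x.map PowerSeries.C + Matrix.vecMulVec a (cst p)

theorem map_C_mulVec (x : Matrix ι ι ℂ) (W : ι → ℂ) :
    (x.map (PowerSeries.C : ℂ →+* PS)) *ᵥ (cst W) = cst (x *ᵥ W) := by
  ext1 a
  show _ = PowerSeries.C ((x *ᵥ W) a)
  rw [RingHom.map_mulVec]
  rfl

theorem cst_dot (p W : ι → ℂ) : cst p ⬝ᵥ cst W = PowerSeries.C (p ⬝ᵥ W) := by
  rw [RingHom.map_dotProduct]
  rfl

theorem defo_mulVec (x : Matrix ι ι ℂ) (a : ι → PS) (p W : ι → ℂ) :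
    defo x a p *ᵥ cst W = cst (x *ᵥ W) + (PowerSeries.C (p ⬝ᵥ W) : PS) • a := by
  rw [defo, Matrix.add_mulVec, map_C_mulVec, Matrix.vecMulVec_mulVec, cst_dot]
  ext1 b
  simp [mul_comm]

theorem cst_add (W W' : ι → ℂ) : cst (W + W') = cst W + cst W' := by
  ext1 a; simp [cst]
theorem cst_neg (W : ι → ℂ) : cst (-W) = -cst W := by
  ext1 a; simp [cst]
theorem cst_smul (c : ℂ) (W : ι → ℂ) : cst (c • W) = (PowerSeries.C c : PS) • cst W := by
  ext1 a; simp [cst]

theorem exists_deformation {x y : Matrix ι ι ℂ} {u v : ℂ} {W0 W1 W2 p q : ι → ℂ}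
    (h : EigenData x y u v W0 W1 W2 p q) (U V : PS) (hU : PowerSeries.constantCoeff U = u)
    (hV : PowerSeries.constantCoeff V = v) :
    ∃ a b : ι → PS,
      IsKerM (defo x a p) (defo y b q) U V (cst W0) (cst W1) (cst W2) ∧
      (∀ c, PowerSeries.constantCoeff (a c) = 0) ∧ (∀ c, PowerSeries.constantCoeff (b c) = 0) ∧
      (∀ c, a c ∈ Algebra.adjoin ℂ {U, V}) ∧ (∀ c, b c ∈ Algebra.adjoin ℂ {U, V}) := by
  set a : ι → PS := -((U * V - PowerSeries.C (u * v)) • cst W0 + (V - PowerSeries.C v) • cst W2)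
    with ha
  set b : ι → PS := -((U * V - PowerSeries.C (u * v)) • cst W0 + (U - PowerSeries.C u) • cst W1)
    with hb
  have hC : ∀ c : ℂ, (PowerSeries.C c : PS) ∈ Algebra.adjoin ℂ {U, V} := fun c =>
    Subalgebra.algebraMap_mem (Algebra.adjoin ℂ {U, V}) c
  have hUm : U ∈ Algebra.adjoin ℂ {U, V} := Algebra.subset_adjoin (by simp)
  have hVm : V ∈ Algebra.adjoin ℂ {U, V} := Algebra.subset_adjoin (by simp)
  refine ⟨a, b, ⟨?_, ?_, ?_⟩, ?_, ?_, ?_, ?_⟩
  · simp only [Matrix.mulVecLin_apply]
    rw [defo_mulVec, defo_mulVec, h.p0, h.q0, map_zero, zero_smul, zero_smul, add_zero, add_zero,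
      ← cst_add, ← cst_add]
    have := h.ker.e0
    simp only [Matrix.mulVecLin_apply] at this
    rw [this]
  · simp only [Matrix.mulVecLin_apply]
    rw [defo_mulVec, h.p1, map_one, one_smul]
    have := h.ker.e1
    simp only [Matrix.mulVecLin_apply] at this
    rw [this, cst_neg, cst_smul, cst_add, cst_smul, ha, map_mul]
    ext1 c
    simp only [Pi.neg_apply, Pi.add_apply, Pi.smul_apply, smul_eq_mul]
    ring
  · simp only [Matrix.mulVecLin_apply]
    rw [defo_mulVec, h.q2, map_one, one_smul]
    have := h.ker.e2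
    simp only [Matrix.mulVecLin_apply] at this
    rw [this, cst_neg, cst_smul, cst_add, cst_smul, hb, map_mul]
    ext1 c
    simp only [Pi.neg_apply, Pi.add_apply, Pi.smul_apply, smul_eq_mul]
    ring
  · intro c
    simp [ha, hU, hV]
  · intro c
    simp [hb, hU, hV]
  · intro c
    rw [ha]
    simp only [Pi.neg_apply, Pi.add_apply, Pi.smul_apply, smul_eq_mul, cst]
    exact Subalgebra.neg_mem _ (Subalgebra.add_mem _
      (Subalgebra.mul_mem _ (Subalgebra.sub_mem _ (Subalgebra.mul_mem _ hUm hVm) (hC _)) (hC _))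
      (Subalgebra.mul_mem _ (Subalgebra.sub_mem _ hVm (hC _)) (hC _)))
  · intro c
    rw [hb]
    simp only [Pi.neg_apply, Pi.add_apply, Pi.smul_apply, smul_eq_mul, cst]
    exact Subalgebra.neg_mem _ (Subalgebra.add_mem _
      (Subalgebra.mul_mem _ (Subalgebra.sub_mem _ (Subalgebra.mul_mem _ hUm hVm) (hC _)) (hC _))
      (Subalgebra.mul_mem _ (Subalgebra.sub_mem _ hUm (hC _)) (hC _)))

end deform

end Pool.Agent.MP_240e45_ag
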