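import Pool.Agent.Lib.MP_240e45_ag.R0

/-! Explicit 3 x 3 matrices. -/

namespace Pool.Agent.MP_240e45_ag

open Matrix

theorem isUnit_of_mul_eq {A : Type*} [Ring A] {a b : A} (h1 : a * b = 1) (h2 : b * a = 1) :
    IsUnit a := ⟨⟨a, b, h1, h2⟩, rfl⟩

theorem ringInverse_eq {A : Type*} [Ring A] {a b : A} (h1 : a * b = 1) (h2 : b * a = 1) :
    Ring.inverse a = b := by
  have hu := isUnit_of_mul_eq h1 h2
  calc Ring.inverse a = Ring.inverse a * (a * b) := by rw [h1, mul_one]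
    _ = b := by rw [← mul_assoc, Ring.inverse_mul_cancel _ hu, one_mul]

def xm : Matrix (Fin 3) (Fin 3) ℂ := !![0, 0, 1; 1, 0, 0; 0, 1, 0]
def ym (t : ℂ) : Matrix (Fin 3) (Fin 3) ℂ := !![0, 0, -t; 0, 0, 0; 0, t, 0]

theorem cc_m (t : ℂ) : cc xm (ym t) = !![0, 2 * t, 0; 0, 0, -t; -t, 0, 0] := by
  ext i j
  fin_cases i <;> fin_cases j <;>
    simp [cc, xm, ym, Matrix.mul_apply, Fin.sum_univ_three]
  ring

theorem ff_m (t : ℂ) : ff xm (ym t) = !![1, 0, 0; 0, 1 - t, 0; 0, 0, 1 + t + t ^ 2] := by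
  ext i j
  fin_cases i <;> fin_cases j <;>
    simp [ff, xm, ym, Matrix.mul_apply, Fin.sum_univ_three]
  ring

theorem gg_m (t : ℂ) : gg xm (ym t) = !![1 + t, 0, 0; 0, 1, 0; 0, 0, 1 - t + t ^ 2] := by
  ext i j
  fin_cases i <;> fin_cases j <;>
    simp [gg, xm, ym, Matrix.mul_apply, Fin.sum_univ_three]
  ring

theorem ff_m' (t : ℂ) : ff (ym t) xm = !![1 - t + t ^ 2, 0, 0; 0, 1 + t, 0; 0, 0, 1] := by
  ext i j
  fin_cases i <;> fin_cases j <;>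
    simp [ff, xm, ym, Matrix.mul_apply, Fin.sum_univ_three]
  ring

theorem gg_m' (t : ℂ) : gg (ym t) xm = !![1 - t, 0, 0; 0, 1 + t + t ^ 2, 0; 0, 0, 1] := by
  ext i j
  fin_cases i <;> fin_cases j <;>
    simp [gg, xm, ym, Matrix.mul_apply, Fin.sum_univ_three]
  ring

/-- the nondegeneracy conditions on `t` -/
structure Good (t : ℂ) : Prop where
  h1 : 1 - t ≠ 0
  h2 : 1 + t ≠ 0
  h3 : 1 + t + t ^ 2 ≠ 0
  h4 : 1 - t + t ^ 2 ≠ 0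

theorem diag_mul_inv {a b c : ℂ} (ha : a ≠ 0) (hb : b ≠ 0) (hc : c ≠ 0) :
    !![a, 0, 0; 0, b, 0; 0, 0, c] * !![a⁻¹, 0, 0; 0, b⁻¹, 0; 0, 0, c⁻¹] = 1 := by
  ext i j
  fin_cases i <;> fin_cases j <;>
    simp [Matrix.mul_apply, Fin.sum_univ_three, ha, hb, hc]

theorem diag_inv_mul {a b c : ℂ} (ha : a ≠ 0) (hb : b ≠ 0) (hc : c ≠ 0) :
    !![a⁻¹, 0, 0; 0, b⁻¹, 0; 0, 0, c⁻¹] * !![a, 0, 0; 0, b, 0; 0, 0, c] = 1 := by
  ext i j
  fin_cases i <;> fin_cases j <;>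
    simp [Matrix.mul_apply, Fin.sum_univ_three, ha, hb, hc]

theorem isUnit_diag {a b c : ℂ} (ha : a ≠ 0) (hb : b ≠ 0) (hc : c ≠ 0) :
    IsUnit !![a, 0, 0; 0, b, 0; 0, 0, c] :=
  isUnit_of_mul_eq (diag_mul_inv ha hb hc) (diag_inv_mul ha hb hc)

theorem inverse_diag {a b c : ℂ} (ha : a ≠ 0) (hb : b ≠ 0) (hc : c ≠ 0) :
    Ring.inverse !![a, 0, 0; 0, b, 0; 0, 0, c] = !![a⁻¹, 0, 0; 0, b⁻¹, 0; 0, 0, c⁻¹] :=
  ringInverse_eq (diag_mul_inv ha hb hc) (diag_inv_mul ha hb hc)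

variable {t : ℂ}

theorem Good.ff (h : Good t) : IsUnit (ff xm (ym t)) := by
  rw [ff_m]; exact isUnit_diag one_ne_zero h.h1 h.h3
theorem Good.gg (h : Good t) : IsUnit (gg xm (ym t)) := by
  rw [gg_m]; exact isUnit_diag h.h2 one_ne_zero h.h4
theorem Good.ff' (h : Good t) : IsUnit (MP_240e45_ag.ff (ym t) xm) := by
  rw [ff_m']; exact isUnit_diag h.h4 h.h2 one_ne_zero
theorem Good.gg' (h : Good t) : IsUnit (MP_240e45_ag.gg (ym t) xm) := by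
  rw [gg_m']; exact isUnit_diag h.h1 h.h3 one_ne_zero

theorem Good.rr (h : Good t) : rr xm (ym t) =
    !![0, 0, 2 * t ^ 2 * (1 - t)⁻¹ * (1 + t)⁻¹;
       - t ^ 2 * (1 + t + t ^ 2)⁻¹, 0, 0;
       0, 2 * t ^ 2 * (1 - t + t ^ 2)⁻¹, 0] := by
  rw [MP_240e45_ag.rr, ff_m, gg_m, cc_m, inverse_diag one_ne_zero h.h1 h.h3,
    inverse_diag h.h2 one_ne_zero h.h4]
  ext i j
  fin_cases i <;> fin_cases j <;>
    simp [Matrix.mul_apply, Fin.sum_univ_three] <;> ring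

end Pool.Agent.MP_240e45_ag
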